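import Pool.Agent.Lib_MP_2c424f_lc.PIVd
import Pool.Agent.Lib_MP_2c424f_cor.C01
import Pool.Agent.Lib_MP_2c424f_cor.C03

/-!
# MP_2c424f_pr, linear corners, Part IV (Kempe alignment on a graph): definitions

`V` the vertices of a finite bipartite graph `X` (parity `ev`), `Bl` the blocks, `β t a b` the points of the block `t`,
odd points: `od a b`.
-/

set_option autoImplicit false

open Finset Filter

namespace Pool.Agent.LC

open Pool.Agent.LO Pool.Agent.LIN Pool.Agent.THR Pool.Agent.COR

/-- pattern of `F` on a block with the points `b` -/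
def pt4 {V : Type} {d q : ℕ} (b : Bt d → Bt d → V) (F : V → Fin q) : Pat d q := fun x y => F (b x y)

open scoped Classical in
/-- the odd points of the block with colour `i` (as pairs of bit vectors) -/
noncomputable def oI {V : Type} {d q : ℕ} (b : Bt d → Bt d → V) (F : V → Fin q) (i : Fin q) : Finset (Bt d × Bt d) :=
  univ.filter fun p => od p.1 p.2 ∧ F (b p.1 p.2) = i

section
variable {V : Type} [Fintype V] [DecidableEq V] {d q : ℕ}

open scoped Classical in
/-- one `ij`-cluster (represented by `c`) contains almost all odd points of colour `i` of the block -/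
def FIN4 (X : SimpleGraph V) (b : Bt d → Bt d → V) (F : V → Fin q) (i j : Fin q) : Prop :=
  ∃ c : V, (((oI b F i).filter fun p => rpc X F i j (b p.1 p.2) ≠ c).card : ℝ) ≤ 1 / 50 * ((oI b F i).card : ℝ)

/-- the cluster of `x` has the wrong parity -/
def wr4 (ev : V → Prop) (i j : Fin q) (F : V → Fin q) (x : V) : Prop := (F x = j ∧ ev x) ∨ (F x = i ∧ ¬ ev x)

open scoped Classical in
/-- number of points in `U` of the cluster of `x` -/
noncomputable def cs4 (X : SimpleGraph V) (U : Finset V) (i j : Fin q) (F : V → Fin q) (x : V) : ℕ :=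
  (U.filter fun y => kcl X F i j x y).card

open scoped Classical in
/-- the union of the wrong clusters with at least `m` points in `U` -/
noncomputable def wb4 (X : SimpleGraph V) (ev : V → Prop) (U : Finset V) (m : ℝ) (i j : Fin q) (F : V → Fin q) :
    Finset V :=
  univ.filter fun x => wr4 ev i j F x ∧ m ≤ (cs4 X U i j F x : ℝ)

/-- flip them -/
noncomputable def Ph4 (X : SimpleGraph V) (ev : V → Prop) (U : Finset V) (m : ℝ) (i j : Fin q) (F : V → Fin q) :
    V → Fin q := kfl i j (wb4 X ev U m i j F) F

/-- the sweep -/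
noncomputable def sw4 (X : SimpleGraph V) (ev : V → Prop) (U : Finset V) (m : ℝ) (pr : ℕ → Fin q × Fin q) :
    ℕ → (V → Fin q) → (V → Fin q)
  | 0, F => F
  | n + 1, F => Ph4 X ev U m (pr n).1 (pr n).2 (sw4 X ev U m pr n F)

end

end Pool.Agent.LC
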