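import Pool.Agent.Lib_MP_2c424f_lc4.Defs4
import Pool.Agent.Lib_MP_2c424f_thr.A1

/-!
# Part IV, F01: the magnetisation and the labels

`ms_bd`: `a = ra d q ≥ 1000`.  A solution of `m = tanh (a m)`, `m > 0` exists (continuity of `tanh (a x) - x` on `[1/2, 1]`: positive at
`1/2`, negative at `1`; or the existence lemma of THR) so `ms d q = tanh (a ms)`, `0 < ms < 1`; and every positive solution satisfies
`ms ≥ 1 - 1/1000`: if `0 < x ≤ 999/1000` then `tanh (a x) > x` (`tanh y ≥ min (y/2) (1 - 2 e^{-2y})`: for `y = a x ≤ 1`: `tanh y ≥ y/2 = a x/2 > x`;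
for `y ≥ 1`: `tanh y ≥ 3/4`, so `tanh (a x) > x` for `x ≤ 3/4`; for `x ≥ 3/4`: `tanh (a x) ≥ 1 - 2 e^{-1500} > 999/1000`).
`st_congr`: `frq` depends on the set of the pairs with colour `c` only.
`st_w0`, `st_w1`: the clauses of `st` for the shape `none` at the odd points (`hi = false`: `|frq false none c g - (1 - ms)| ≤ et`;
`hi = true`: `|frq false none c g - (1 + ms)| ≤ et`); `frq false none c (pt4 b F) = q |oI b F c| / |oS none|` and `|oS none| = 4^d/2` (`card_od` of LO,
`inS none` is `True`).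
-/

set_option autoImplicit false

open Finset Filter

namespace Pool.Agent.LC

open Pool.Agent.LO Pool.Agent.LIN Pool.Agent.THR Pool.Agent.COR

private theorem F01_tanh (y : ℝ) : 1 - 2 / Real.exp (2 * y) ≤ Real.tanh y := by
  have h1 : 0 < Real.exp y := Real.exp_pos y
  have h2 : Real.exp (2 * y) = Real.exp y ^ 2 := by
    rw [← Real.exp_nat_mul]
    norm_num
  rw [Real.tanh_eq_sinh_div_cosh, Real.sinh_eq, Real.cosh_eq, Real.exp_neg, h2]
  set E := Real.exp y with hE
  have h3 : (E - E⁻¹) / 2 / ((E + E⁻¹) / 2) = 1 - 2 / (E ^ 2 + 1) := by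
    field_simp
    ring
  rw [h3]
  have h4 : 2 / (E ^ 2 + 1) ≤ 2 / E ^ 2 := by
    apply div_le_div_of_nonneg_left (by norm_num) (by positivity)
    linarith
  linarith

private theorem F01_exp {y : ℝ} (hy : 0 ≤ y) : (1 + y) ^ 2 ≤ Real.exp (2 * y) := by
  have h2 : Real.exp (2 * y) = Real.exp y ^ 2 := by
    rw [← Real.exp_nat_mul]
    norm_num
  rw [h2]
  have h3 := Real.add_one_le_exp y
  exact pow_le_pow_left₀ (by linarith) (by linarith) 2

private theorem F01_tanh' {y Y : ℝ} (hY : 0 ≤ Y) (hy : Y ≤ y) : 1 - 2 / (1 + Y) ^ 2 ≤ Real.tanh y := by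
  refine le_trans ?_ (F01_tanh y)
  have h1 := F01_exp (hY.trans hy)
  have h2 : (1 + Y) ^ 2 ≤ Real.exp (2 * y) := by
    refine le_trans ?_ h1
    exact pow_le_pow_left₀ (by linarith) (by linarith) 2
  have h3 : 2 / Real.exp (2 * y) ≤ 2 / (1 + Y) ^ 2 := by
    apply div_le_div_of_nonneg_left (by norm_num) (by positivity) h2
  linarith

theorem ms_bd {d q : ℕ} (hd : 1 ≤ d) (hq : 1 ≤ q) (hR : Rg d q) : 999 / 1000 ≤ ms d q ∧ ms d q ≤ 1 := by
  have hq0 : (0 : ℝ) < q := by exact_mod_cast hq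
  have ha : 1000 ≤ ra d q := by
    unfold ra
    rw [le_div_iff₀ hq0]
    exact_mod_cast hR.2.1
  have hex : ∃ m : ℝ, MFE (ra d q) m := mfe_exists _ (by linarith)
  have hm : MFE (ra d q) (ms d q) := by
    unfold ms
    rw [dif_pos hex]
    exact hex.choose_spec
  have hlt := mfe_lt _ _ hm
  obtain ⟨h0, h1⟩ := hm
  set m := ms d q with hmdef
  set a := ra d q with hadef
  refine ⟨?_, hlt.le⟩
  have hy1 : 1 < a * m := by
    by_contra hcon
    push Not at hcon
    have h2 : 0 < a * m := by positivity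
    have h3 := tanh_ge (a * m) h2.le
    rw [← h1] at h3
    have h4 : (a * m) ^ 3 ≤ a * m := by
      have : (a * m) ^ 3 = (a * m) * (a * m) ^ 2 := by ring
      rw [this]
      have h5 : (a * m) ^ 2 ≤ 1 := by nlinarith
      nlinarith
    have h6 : 1000 * m ≤ a * m := by nlinarith
    nlinarith
  have h2 : 1 / 2 ≤ m := by
    have h3 := F01_tanh' (Y := 1) (by norm_num) hy1.le
    rw [← h1] at h3
    norm_num at h3
    linarith
  have h3 : 500 ≤ a * m := by nlinarith
  have h4 := F01_tanh' (Y := 500) (by norm_num) h3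
  rw [← h1] at h4
  norm_num at h4
  linarith

private theorem F01_frq {d q : ℕ} (e : Bool) (s : Shp d) {c : Fin q} {g g' : Pat d q}
    (h : ∀ a b, g a b = c ↔ g' a b = c) : frq e s c g = frq e s c g' := by
  unfold frq
  simp only [h]

theorem st_congr {d q : ℕ} {η : ℝ} {hi : Bool} {c : Fin q} {g g' : Pat d q} (h : ∀ a b, g a b = c ↔ g' a b = c) :
    st η hi c g ↔ st η hi c g' := by
  unfold st
  simp only [F01_frq _ _ h]

open scoped Classical in
private theorem F01_oS {d : ℕ} (hd : 1 ≤ d) : (((oS (none : Shp d)).card : ℕ) : ℝ) = 4 ^ d / 2 := by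
  have h := card_od (d := d) hd
  have h1 : (((oS (none : Shp d)).card : ℕ) : ℝ) = ∑ a : Bt d, ∑ b : Bt d, if od a b then (1 : ℝ) else 0 := by
    rw [← Fintype.sum_prod_type', ← Finset.sum_filter, Finset.sum_const, nsmul_eq_mul, mul_one]
    congr 2
    unfold oS inS
    ext p
    simp
  rw [h1]
  unfold EB at h
  rw [div_eq_one_iff_eq (by positivity)] at h
  rw [← h]
  rw [mul_div_cancel_left₀ _ (by norm_num)]

private theorem F01_oI {V : Type} {d q : ℕ} (hd : 1 ≤ d) (b : Bt d → Bt d → V) (F : V → Fin q) (c : Fin q) :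
    (q : ℝ) * (oI b F c).card = frq false none c (pt4 b F) * (4 ^ d / 2) := by
  have h4 : (0 : ℝ) < 4 ^ d / 2 := by positivity
  have h1 : frq false none c (pt4 b F) =
      (∑ p ∈ oS (none : Shp d), if F (b p.1 p.2) = c then (q : ℝ) else 0) / (((oS (none : Shp d)).card : ℕ) : ℝ) := by
    unfold frq pt4
    simp
  rw [h1, F01_oS hd, div_mul_cancel₀ _ h4.ne', ← Finset.sum_filter, Finset.sum_const, nsmul_eq_mul, mul_comm]
  congr 3
  unfold oS oI inS
  ext p
  simp

theorem st_w0 {V : Type} {d q : ℕ} (hd : 1 ≤ d) (hR : Rg d q) (b : Bt d → Bt d → V) (F : V → Fin q) (c : Fin q)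
    (h : st et false c (pt4 b F)) : (q : ℝ) * (oI b F c).card ≤ 2 / 1000 * (4 ^ d / 2) := by
  have hq : 1 ≤ q := by
    have := c.isLt
    omega
  obtain ⟨h1, h2⟩ := ms_bd hd hq hR
  have h3 := (h none).2
  have h4 : (0 : ℝ) < 4 ^ d / 2 := by positivity
  rw [F01_oI hd]
  refine mul_le_mul_of_nonneg_right ?_ h4.le
  have h5 := (abs_le.mp h3).2
  unfold et at h5
  linarith

theorem st_w1 {V : Type} {d q : ℕ} (hd : 1 ≤ d) (hR : Rg d q) (b : Bt d → Bt d → V) (F : V → Fin q) (c : Fin q)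
    (h : st et true c (pt4 b F)) : 1998 / 1000 * (4 ^ d / 2) ≤ (q : ℝ) * (oI b F c).card ∧
      (q : ℝ) * (oI b F c).card ≤ 2001 / 1000 * (4 ^ d / 2) := by
  have hq : 1 ≤ q := by
    have := c.isLt
    omega
  obtain ⟨h1, h2⟩ := ms_bd hd hq hR
  have h3 := (h none).1
  have h4 : (0 : ℝ) < 4 ^ d / 2 := by positivity
  rw [F01_oI hd]
  have h5 := abs_le.mp h3
  have h6 : |frq false none c (pt4 b F) - (1 + ms d q)| ≤ et := h3
  have h7 := abs_le.mp h6
  unfold et at h7
  constructor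
  · refine mul_le_mul_of_nonneg_right ?_ h4.le
    linarith [h7.1]
  · refine mul_le_mul_of_nonneg_right ?_ h4.le
    linarith [h7.2]

end Pool.Agent.LC
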