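import Pool.Agent.Lib_MP_2c424f_lc4.F01

/-!
# Part IV, F02: exchanging two colours on a good block (as `AL_bal`, `GD_iff` in COR.C04)

`ALP_bal`: statuses of the colours `c ≠ i, j` do not change (`st_congr`), and the cardinalities agree.
`GD4_iff`: if no colour is bad then `c ∉ ALP g` iff `st et true c g` (`bdP`; both labels at once are impossible: `st_w0`, `st_w1`).
-/

set_option autoImplicit false

open Finset Filter

namespace Pool.Agent.LC

open Pool.Agent.LO Pool.Agent.LIN Pool.Agent.THR Pool.Agent.COR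

open scoped Classical in
private theorem F02_card {q : ℕ} {i j : Fin q} (hij : i ≠ j) (A : Finset (Fin q)) :
    A.card = ((A.erase i).erase j).card + ((if i ∈ A then 1 else 0) + (if j ∈ A then 1 else 0)) := by
  by_cases hi : i ∈ A
  · by_cases hj : j ∈ A
    · have h1 : j ∈ A.erase i := Finset.mem_erase.2 ⟨hij.symm, hj⟩
      have h2 := Finset.card_erase_add_one h1
      have h3 := Finset.card_erase_add_one hi
      rw [if_pos hi, if_pos hj]
      omega
    · have h1 : j ∉ A.erase i := fun h => hj (Finset.mem_of_mem_erase h)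
      have h3 := Finset.card_erase_add_one hi
      rw [if_pos hi, if_neg hj, Finset.erase_eq_of_notMem h1]
      omega
  · rw [Finset.erase_eq_of_notMem hi, if_neg hi]
    by_cases hj : j ∈ A
    · have h3 := Finset.card_erase_add_one hj
      rw [if_pos hj]
      omega
    · rw [if_neg hj, Finset.erase_eq_of_notMem hj]
      omega

private theorem F02_mem {d q : ℕ} {g : Pat d q} {c : Fin q} : c ∈ ALP g ↔ st et false c g := by
  classical
  unfold ALP
  rw [Finset.mem_filter]
  exact ⟨fun h => h.2, fun h => ⟨Finset.mem_univ _, h⟩⟩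

open scoped Classical in
theorem ALP_bal {d q : ℕ} {i j : Fin q} (hij : i ≠ j) (g g' : Pat d q)
    (h : ∀ a b c, c ≠ i → c ≠ j → (g' a b = c ↔ g a b = c)) (hc : (ALP g').card = (ALP g).card) :
    (∀ c, c ≠ i → c ≠ j → (c ∈ ALP g' ↔ c ∈ ALP g)) ∧
      (if i ∈ ALP g' then 1 else 0) + (if j ∈ ALP g' then 1 else 0) =
        (if i ∈ ALP g then 1 else 0) + (if j ∈ ALP g then (1 : ℕ) else 0) := by
  have h1 : ∀ c, c ≠ i → c ≠ j → (c ∈ ALP g' ↔ c ∈ ALP g) := by
    intro c hci hcj
    rw [F02_mem, F02_mem]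
    exact st_congr fun a b => h a b c hci hcj
  refine ⟨h1, ?_⟩
  have h2 : ((ALP g').erase i).erase j = ((ALP g).erase i).erase j := by
    ext c
    simp only [Finset.mem_erase]
    constructor
    · rintro ⟨hj, hi, hm⟩
      exact ⟨hj, hi, (h1 c hi hj).1 hm⟩
    · rintro ⟨hj, hi, hm⟩
      exact ⟨hj, hi, (h1 c hi hj).2 hm⟩
  have h3 := F02_card hij (ALP g')
  have h4 := F02_card hij (ALP g)
  rw [h2] at h3
  omega

theorem ALP_iff {d q : ℕ} {g : Pat d q} {c : Fin q} : c ∈ ALP g ↔ st et false c g := F02_mem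

theorem GD4_iff {V : Type} {d q : ℕ} (hd : 1 ≤ d) (hR : Rg d q) {b : Bt d → Bt d → V} {F : V → Fin q}
    (h : G0P (pt4 b F)) (c : Fin q) : c ∉ ALP (pt4 b F) ↔ st et true c (pt4 b F) := by
  have h0 : st et false c (pt4 b F) → ¬ st et true c (pt4 b F) := by
    intro h0 h1
    have h2 := st_w0 hd hR b F c h0
    have h3 := (st_w1 hd hR b F c h1).1
    have h4 : (0 : ℝ) < 4 ^ d / 2 := by positivity
    have h5 := h3.trans h2
    generalize (4 : ℝ) ^ d / 2 = x at h4 h5
    linarith
  have hb : ¬ (¬ st et true c (pt4 b F) ∧ ¬ st et false c (pt4 b F)) := h c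
  rw [F02_mem]
  constructor
  · intro h1
    by_contra h2
    exact hb ⟨h2, h1⟩
  · intro h1 h2
    exact h0 h2 h1

end Pool.Agent.LC
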