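import Pool.Agent.Lib_MP_2c424f_lc4.F02

/-!
# Part IV, F03: a block which is good before and after a flip; blocks which are not fine (as COR.C05, COR.C06)

`j ∈ ALP`, `i ∉ ALP` (so `i` is used at the odd points, `j` at the even points).  `S_β := {p ∈ oI b F i : ω (rpc X F i j (b p)) = β}`.
After the flip (`fw`): the odd points of colour `i` are `S_false` and the odd points with colour `j` and bit `true`.
By `ALP_bal` (both cardinalities are `q/2`) exactly one of `i`, `j` is in the new `ALP`.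
 If `i` is not: `st_w1` for the new pattern: `q (|S_false| + #(odd points of colour j)) ≥ 1998/1000 N`, `N = 4^d/2`; `st_w0` for `j`:
 `q #(odd, colour j) ≤ 2/1000 N`; `q |oI| ≤ 2001/1000 N`; so `q |S_true| ≤ 5/1000 N ≤ (1/100) q |oI|`.
 If `i` is: `st_w0` for the new pattern: `q |S_false| ≤ 2/1000 N ≤ (1/100) q |oI|`.
`not_fine4`: `dich` with `Y = Bt d × Bt d`, `p v = 1/|oI|` for `v ∈ oI` and 0 otherwise, `K v = {rpc X F i j (b v)}`, `δ = 1/100`
(`hK`: `K v ≠ ∅`).
-/

set_option autoImplicit false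

open Finset Filter

namespace Pool.Agent.LC

open Pool.Agent.LO Pool.Agent.LIN Pool.Agent.THR Pool.Agent.COR

variable {V : Type} [Fintype V] [DecidableEq V] {d q : ℕ}

private theorem F03_sum {Y : Type} [Fintype Y] (S : Finset Y) (P : Y → Prop) (d1 d2 : DecidablePred P)
    (d3 : DecidablePred (· ∈ S)) (r : ℝ) :
    (∑ v, @ite ℝ (P v) (d1 v) (@ite ℝ (v ∈ S) (d3 v) r 0) 0) = ((@Finset.filter Y P d2 S).card : ℝ) * r := by
  classical
  have h1 : ∀ v : Y, @ite ℝ (P v) (d1 v) (@ite ℝ (v ∈ S) (d3 v) r 0) 0 =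
      if v ∈ @Finset.filter Y P d2 S then r else 0 := by
    intro v
    by_cases h : v ∈ @Finset.filter Y P d2 S
    · have h' := Finset.mem_filter.1 h
      rw [if_pos h, if_pos h'.2, if_pos h'.1]
    · rw [if_neg h]
      by_cases hP : P v
      · have hv : v ∉ S := fun hv => h (Finset.mem_filter.2 ⟨hv, hP⟩)
        rw [if_pos hP, if_neg hv]
      · rw [if_neg hP]
  rw [Finset.sum_congr rfl fun v _ => h1 v, Finset.sum_ite_mem, Finset.univ_inter, Finset.sum_const, nsmul_eq_mul]

omit [Fintype V] [DecidableEq V] in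
open scoped Classical in
private theorem F03_pos (hd : 1 ≤ d) (hR : Rg d q) {b : Bt d → Bt d → V} {F : V → Fin q}
    {i : Fin q} (hg : GDP (pt4 b F)) (hi : i ∉ ALP (pt4 b F)) :
    1998 / 1000 * (4 ^ d / 2) ≤ (q : ℝ) * (oI b F i).card ∧
      (q : ℝ) * (oI b F i).card ≤ 2001 / 1000 * (4 ^ d / 2) :=
  st_w1 hd hR b F i ((GD4_iff hd hR hg.1 i).1 hi)

open scoped Classical in
theorem flip_dich (hd : 1 ≤ d) (hq : 1 ≤ q) (hR : Rg d q) {X : SimpleGraph V} {b : Bt d → Bt d → V} {F : V → Fin q}
    {i j : Fin q} (hij : i ≠ j) (hg : GDP (pt4 b F)) (hj : j ∈ ALP (pt4 b F)) (hi : i ∉ ALP (pt4 b F))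
    (ω : V → Bool) (hg' : GDP (pt4 b (fw X i j ω F))) :
    (((oI b F i).filter fun p => ω (rpc X F i j (b p.1 p.2)) = true).card : ℝ) ≤ 1 / 100 * ((oI b F i).card : ℝ) ∨
      (((oI b F i).filter fun p => ω (rpc X F i j (b p.1 p.2)) = false).card : ℝ) ≤
        1 / 100 * ((oI b F i).card : ℝ) := by
  have hbal := ALP_bal hij (pt4 b F) (pt4 b (fw X i j ω F))
    (fun x y c hci hcj => fw_other X i j ω F (b x y) c hci hcj) (hg'.2.trans hg.2.symm)
  have hI := F03_pos hd hR hg hi
  have hJ := st_w0 hd hR b F j (ALP_iff.1 hj)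
  have hN : (0 : ℝ) < 4 ^ d / 2 := by positivity
  have hq0 : (0 : ℝ) < q := by exact_mod_cast hq
  -- the two parts of `oI b F i`
  have hsum : (((oI b F i).filter fun p => ω (rpc X F i j (b p.1 p.2)) = true).card : ℝ) +
      (((oI b F i).filter fun p => ω (rpc X F i j (b p.1 p.2)) = false).card : ℝ) = ((oI b F i).card : ℝ) := by
    have h1 := Finset.card_filter_add_card_filter_not (s := oI b F i)
      (fun p : Bt d × Bt d => ω (rpc X F i j (b p.1 p.2)) = true)
    have h2 : (oI b F i).filter (fun p => ¬ ω (rpc X F i j (b p.1 p.2)) = true) =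
        (oI b F i).filter fun p => ω (rpc X F i j (b p.1 p.2)) = false := by
      apply Finset.filter_congr
      intro p _
      simp
    rw [h2] at h1
    exact_mod_cast h1
  set St := (oI b F i).filter fun p => ω (rpc X F i j (b p.1 p.2)) = true with hSt
  set Sf := (oI b F i).filter fun p => ω (rpc X F i j (b p.1 p.2)) = false with hSf
  have h2 := hbal.2
  rw [if_neg hi, if_pos hj] at h2
  by_cases hi' : i ∈ ALP (pt4 b (fw X i j ω F))
  · right
    have h3 := st_w0 hd hR b (fw X i j ω F) i (ALP_iff.1 hi')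
    have h4 : Sf ⊆ oI b (fw X i j ω F) i := by
      intro p hp
      rw [hSf, Finset.mem_filter] at hp
      have hp1 := hp.1
      unfold oI at hp1 ⊢
      rw [Finset.mem_filter] at hp1 ⊢
      refine ⟨Finset.mem_univ _, hp1.2.1, ?_⟩
      rw [fw_false X i j ω F _ hp.2]
      exact hp1.2.2
    have h5 : (Sf.card : ℝ) ≤ ((oI b (fw X i j ω F) i).card : ℝ) := by
      exact_mod_cast Finset.card_le_card h4
    have h6 : (q : ℝ) * Sf.card ≤ q * (1 / 100 * ((oI b F i).card : ℝ)) := by
      nlinarith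
    exact le_of_mul_le_mul_left h6 hq0
  · left
    have h3 := F03_pos hd hR hg' hi'
    have h4 : oI b (fw X i j ω F) i ⊆ Sf ∪ oI b F j := by
      intro p hp
      unfold oI at hp
      rw [Finset.mem_filter] at hp
      rw [Finset.mem_union]
      by_cases hw : ω (rpc X F i j (b p.1 p.2)) = true
      · right
        unfold oI
        rw [Finset.mem_filter]
        refine ⟨Finset.mem_univ _, hp.2.1, ?_⟩
        by_contra hne
        by_cases hFi : F (b p.1 p.2) = i
        · have h5 := (fw_true X i j ω F _ hw).2 hFi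
          rw [hp.2.2] at h5
          exact hij h5
        · have h5 := (fw_other X i j ω F (b p.1 p.2) (F (b p.1 p.2)) hFi hne).2 rfl
          rw [hp.2.2] at h5
          exact hFi h5.symm
      · left
        have hw' : ω (rpc X F i j (b p.1 p.2)) = false := by simpa using hw
        have h5 := hp.2.2
        rw [fw_false X i j ω F _ hw'] at h5
        rw [hSf, Finset.mem_filter]
        refine ⟨?_, hw'⟩
        unfold oI
        rw [Finset.mem_filter]
        exact ⟨Finset.mem_univ _, hp.2.1, h5⟩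
    have h5 : ((oI b (fw X i j ω F) i).card : ℝ) ≤ (Sf.card : ℝ) + ((oI b F j).card : ℝ) := by
      exact_mod_cast (Finset.card_le_card h4).trans (Finset.card_union_le _ _)
    have h6 : (q : ℝ) * ((oI b (fw X i j ω F) i).card : ℝ) ≤ q * (Sf.card : ℝ) + q * ((oI b F j).card : ℝ) := by
      nlinarith
    have h7 : (q : ℝ) * St.card = q * ((oI b F i).card : ℝ) - q * (Sf.card : ℝ) := by
      rw [← hsum]; ring
    have h8 : (q : ℝ) * St.card ≤ q * (1 / 100 * ((oI b F i).card : ℝ)) := by
      nlinarith [h3.1, hI.1, hI.2]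
    exact le_of_mul_le_mul_left h8 hq0

open scoped Classical in
private theorem F03_dich {Y W : Type} [Fintype Y] [Fintype W] [inst : Fintype (W → Bool)] (p : Y → ℝ)
    (hp : ∀ v, 0 ≤ p v) (h1 : ∑ v, p v = 1)
    (K : Y → Finset W) (δ : ℝ) (h0 : 0 ≤ δ) (hδ : δ ≤ 1 / 100) (hK : (∑ v, if K v = ∅ then p v else 0) ≤ δ)
    (H : (9 / 10 : ℝ) * 2 ^ Fintype.card W <
      (((@univ (W → Bool) inst).filter
        fun ω : W → Bool => gS p K ω true ≤ δ ∨ gS p K ω false ≤ δ).card : ℝ)) :
    ∃ c : W, (∑ v, if K v ⊆ {c} then 0 else p v) ≤ 2 * δ := by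
  refine dich p hp h1 K δ h0 hδ hK (lt_of_lt_of_eq H (congrArg Nat.cast (congrArg Finset.card
    (Finset.ext fun ω => ?_))))
  simp only [Finset.mem_filter, Finset.mem_univ, true_and]

open scoped Classical in
theorem not_fine4 (hd : 1 ≤ d) (hq : 1 ≤ q) (hR : Rg d q) {X : SimpleGraph V} {b : Bt d → Bt d → V} {F : V → Fin q}
    {i j : Fin q} (hij : i ≠ j) (hg : GDP (pt4 b F)) (hj : j ∈ ALP (pt4 b F)) (hi : i ∉ ALP (pt4 b F))
    (hF : ¬ FIN4 X b F i j) :
    ((univ.filter fun ω : V → Bool => GDP (pt4 b (fw X i j ω F))).card : ℝ) ≤ 9 / 10 * 2 ^ Fintype.card V := by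
  by_contra hcon
  rw [not_le] at hcon
  apply hF
  have hI := F03_pos hd hR hg hi
  have hN : (0 : ℝ) < 4 ^ d / 2 := by positivity
  have hq0 : (0 : ℝ) < q := by exact_mod_cast hq
  have hc0 : (0 : ℝ) < ((oI b F i).card : ℝ) := by
    by_contra h
    have h1 : ((oI b F i).card : ℝ) = 0 := le_antisymm (not_lt.1 h) (Nat.cast_nonneg _)
    rw [h1, mul_zero] at hI
    nlinarith [hI.1]
  let p : Bt d × Bt d → ℝ := fun v => if v ∈ oI b F i then 1 / ((oI b F i).card : ℝ) else 0
  let K : Bt d × Bt d → Finset V := fun v => {rpc X F i j (b v.1 v.2)}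
  have hind : ∀ (ω : V → Bool) (β : Bool), gS p K ω β =
      (((oI b F i).filter fun v => ω (rpc X F i j (b v.1 v.2)) = β).card : ℝ) * (1 / ((oI b F i).card : ℝ)) := by
    intro ω β
    refine Eq.trans ?_ (F03_sum (oI b F i) (fun v => ω (rpc X F i j (b v.1 v.2)) = β) (fun v => inferInstance) _
      (fun v => inferInstance) _)
    unfold gS
    refine Finset.sum_congr rfl fun v _ => ?_
    by_cases h : ω (rpc X F i j (b v.1 v.2)) = β
    · rw [if_pos h, if_pos ⟨_, Finset.mem_singleton_self _, h⟩]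
    · rw [if_neg h, if_neg]
      rintro ⟨x, hx, hx'⟩
      rw [Finset.mem_singleton] at hx
      rw [hx] at hx'
      exact h hx'
  obtain ⟨c, hc⟩ := F03_dich p (fun v => by
      simp only [p]
      split_ifs
      · positivity
      · exact le_rfl) (by
      rw [Finset.sum_ite_mem, Finset.univ_inter, Finset.sum_const, nsmul_eq_mul, mul_one_div, div_self hc0.ne'])
    K (1 / 100) (by norm_num) le_rfl (by
      refine le_trans (le_of_eq (Finset.sum_eq_zero fun v _ => ?_)) (by norm_num : (0 : ℝ) ≤ 1 / 100)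
      exact if_neg (Finset.singleton_ne_empty _)) (by
      refine lt_of_lt_of_le hcon (Nat.cast_le.2 (Finset.card_le_card ?_))
      intro ω hω
      rw [Finset.mem_filter] at hω ⊢
      refine ⟨Finset.mem_univ _, ?_⟩
      rw [hind, hind, mul_one_div, mul_one_div, div_le_iff₀ hc0, div_le_iff₀ hc0]
      exact flip_dich hd hq hR hij hg hj hi ω hω.2)
  refine ⟨c, ?_⟩
  have h1 : (((oI b F i).filter fun v => rpc X F i j (b v.1 v.2) ≠ c).card : ℝ) * (1 / ((oI b F i).card : ℝ)) ≤
      2 * (1 / 100) := by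
    refine le_trans (le_of_eq ?_) hc
    refine Eq.trans (F03_sum (oI b F i) (fun v => rpc X F i j (b v.1 v.2) ≠ c) (fun v => inferInstance) _
      (fun v => inferInstance) _).symm ?_
    refine Finset.sum_congr rfl fun v _ => ?_
    by_cases h : rpc X F i j (b v.1 v.2) = c
    · have h2 : K v ⊆ {c} := by
        intro x hx
        rw [Finset.mem_singleton] at hx ⊢
        rw [hx, h]
      rw [if_neg (not_not.2 h), if_pos h2]
    · have h2 : ¬ K v ⊆ {c} := fun hx => h (Finset.mem_singleton.1 (hx (Finset.mem_singleton_self _)))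
      rw [if_pos h, if_neg h2]
  rw [mul_one_div, div_le_iff₀ hc0] at h1
  linarith

end Pool.Agent.LC
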