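import Pool.Agent.Lib_MP_2c424f_lc4.F03

/-!
# Part IV, F04: few blocks are not fine (as COR.C07, port of `few_not_fine`)

Copy of the proof of `few_not_fine` in `Lib_MP_2c424f_cor/C07.lean` (with its private lemmas `C07_double`, `C07_markov`): replace
`Site d (k+1)` by `V`, `cV V`, `gV V` by `cG X`, `X`, the finset `Q` of blocks by `univ : Finset Bl`, `GD t f` by `GDP (pt4 (β t) F)`; `not_fine4`
instead of `not_fine`, `cG_fw` directly.
-/

set_option autoImplicit false

open Finset Filter

namespace Pool.Agent.LC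

open Pool.Agent.LO Pool.Agent.LIN Pool.Agent.THR Pool.Agent.COR

/-- double counting over a product -/
private theorem F04_double {A B : Type} [Fintype A] [Fintype B] (P : A → Prop) (R : A → B → Prop)
    (hP : DecidablePred P) (hR : ∀ a, DecidablePred (R a)) (hR' : ∀ b, DecidablePred fun a => R a b)
    (m z : ℝ)
    (h1 : ∀ a, P a → m ≤ ((univ.filter fun b => R a b).card : ℝ))
    (h2 : ∀ b, ((univ.filter fun a => R a b).card : ℝ) ≤ z) :
    ((univ.filter P).card : ℝ) * m ≤ (Fintype.card B : ℝ) * z := by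
  have e1 : ((univ.filter P).card : ℝ) * m = ∑ a ∈ univ.filter P, m := by
    rw [Finset.sum_const, nsmul_eq_mul]
  have e2 : (Fintype.card B : ℝ) * z = ∑ _b : B, z := by
    rw [Finset.sum_const, nsmul_eq_mul, Finset.card_univ]
  rw [e1, e2]
  calc ∑ a ∈ univ.filter P, m ≤ ∑ a ∈ univ.filter P, ((univ.filter fun b => R a b).card : ℝ) :=
        Finset.sum_le_sum fun a ha => h1 a (Finset.mem_filter.1 ha).2
    _ ≤ ∑ a, ((univ.filter fun b => R a b).card : ℝ) :=
        Finset.sum_le_univ_sum_of_nonneg fun a => Nat.cast_nonneg _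
    _ = ∑ a, ∑ b, (if R a b then (1 : ℝ) else 0) := by
        refine Finset.sum_congr rfl fun a _ => ?_
        rw [Finset.natCast_card_filter]
    _ = ∑ b, ∑ a, (if R a b then (1 : ℝ) else 0) := Finset.sum_comm
    _ = ∑ b, ((univ.filter fun a => R a b).card : ℝ) := by
        refine Finset.sum_congr rfl fun b _ => ?_
        rw [Finset.natCast_card_filter]
    _ ≤ ∑ _b : B, z := Finset.sum_le_sum fun b _ => h2 b

/-- Markov for a bounded count -/
private theorem F04_markov {T B : Type} [Fintype B] (Q S : Finset T) (hS : S ⊆ Q) (G : T → B → Prop)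
    (hG : ∀ t, DecidablePred (G t)) (hG' : ∀ b, DecidablePred fun t => ¬ G t b)
    (η : ℝ) (h0 : 0 < η) (h1 : η ≤ 1) (hc : 20 * η * (Q.card : ℝ) ≤ (S.card : ℝ))
    (h : ∀ t ∈ S, ((univ.filter fun b => G t b).card : ℝ) ≤ 9 / 10 * (Fintype.card B : ℝ))
    (hD : DecidablePred fun b => η * (Q.card : ℝ) ≤ ((Q.filter fun t => ¬ G t b).card : ℝ)) :
    η * (Fintype.card B : ℝ) ≤
      ((univ.filter fun b => η * (Q.card : ℝ) ≤ ((Q.filter fun t => ¬ G t b).card : ℝ)).card : ℝ) := by
  classical
  set N : ℝ := (Fintype.card B : ℝ) with hN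
  have hN0 : 0 ≤ N := Nat.cast_nonneg _
  set X : B → ℝ := fun b => ((Q.filter fun t => ¬ G t b).card : ℝ) with hX
  set g : ℝ := ((univ.filter fun b => η * (Q.card : ℝ) ≤ X b).card : ℝ) with hg
  have hcardB : ((univ : Finset B).card : ℝ) = N := by rw [Finset.card_univ]
  -- the sum of `X`
  have hlow : 2 * η * (Q.card : ℝ) * N ≤ ∑ b, X b := by
    have s1 : ∀ t ∈ S, N / 10 ≤ ((univ.filter fun b => ¬ G t b).card : ℝ) := by
      intro t ht
      have h3 : ((univ.filter fun b => G t b).card : ℝ) + ((univ.filter fun b => ¬ G t b).card : ℝ) = N := by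
        rw [← hcardB, ← Nat.cast_add]
        congr 1
        exact Finset.card_filter_add_card_filter_not (s := (univ : Finset B)) (fun b => G t b)
      have h4 := h t ht
      linarith
    have s2 : (S.card : ℝ) * (N / 10) ≤ ∑ t ∈ S, ((univ.filter fun b => ¬ G t b).card : ℝ) := by
      rw [← nsmul_eq_mul]
      exact Finset.card_nsmul_le_sum _ _ _ s1
    have s3 : ∑ t ∈ S, ((univ.filter fun b => ¬ G t b).card : ℝ) ≤
        ∑ t ∈ Q, ((univ.filter fun b => ¬ G t b).card : ℝ) :=
      Finset.sum_le_sum_of_subset_of_nonneg hS fun t _ _ => Nat.cast_nonneg _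
    have s4 : ∑ t ∈ Q, ((univ.filter fun b => ¬ G t b).card : ℝ) = ∑ b, X b := by
      have e1 : ∀ t ∈ Q, ((univ.filter fun b => ¬ G t b).card : ℝ) =
          ∑ b, (if ¬ G t b then (1 : ℝ) else 0) := by
        intro t _
        rw [Finset.natCast_card_filter]
      rw [Finset.sum_congr rfl e1, Finset.sum_comm]
      refine Finset.sum_congr rfl fun b _ => ?_
      simp only [hX]
      rw [Finset.natCast_card_filter]
    have s5 : 20 * η * (Q.card : ℝ) * (N / 10) ≤ (S.card : ℝ) * (N / 10) :=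
      mul_le_mul_of_nonneg_right hc (by positivity)
    nlinarith [s2, s3, s4, s5]
  have hup : ∑ b, X b ≤ g * (Q.card : ℝ) + N * (η * (Q.card : ℝ)) := by
    have hXQ : ∀ b, X b ≤ (Q.card : ℝ) := by
      intro b
      simp only [hX]
      exact_mod_cast Finset.card_filter_le _ _
    have s1 : ∀ b, X b ≤ (if η * (Q.card : ℝ) ≤ X b then (Q.card : ℝ) else 0) + η * (Q.card : ℝ) := by
      intro b
      have hp : 0 ≤ η * (Q.card : ℝ) := by positivity
      by_cases hh : η * (Q.card : ℝ) ≤ X b
      · rw [if_pos hh]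
        linarith [hXQ b]
      · rw [if_neg hh]
        linarith
    have s2 : ∑ b, X b ≤ ∑ b, ((if η * (Q.card : ℝ) ≤ X b then (Q.card : ℝ) else 0) + η * (Q.card : ℝ)) :=
      Finset.sum_le_sum fun b _ => s1 b
    rw [Finset.sum_add_distrib, ← Finset.sum_filter, Finset.sum_const, Finset.sum_const, nsmul_eq_mul,
      nsmul_eq_mul, hcardB] at s2
    refine s2.trans (le_of_eq ?_)
    rw [hg]
  have goal : η * N ≤ g := by
    rcases Nat.eq_zero_or_pos Q.card with hQ | hQ
    · have : g = N := by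
        rw [hg, ← hcardB]
        congr 1
        rw [Finset.filter_true_of_mem]
        intro b _
        rw [hQ, Nat.cast_zero, mul_zero]
        simp only [hX]
        positivity
      rw [this]
      nlinarith
    · have hQ' : (0 : ℝ) < Q.card := by exact_mod_cast hQ
      have : η * N * (Q.card : ℝ) ≤ g * (Q.card : ℝ) := by nlinarith
      exact le_of_mul_le_mul_right this hQ'
  exact goal

open scoped Classical in
theorem few_not_fine4 {V Bl : Type} [Fintype V] [DecidableEq V] [Fintype Bl] {d q : ℕ} (hd : 1 ≤ d) (hq : 1 ≤ q)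
    (hR : Rg d q) (X : SimpleGraph V) (β : Bl → Bt d → Bt d → V) {i j : Fin q} (hij : i ≠ j) (η : ℝ) (h0 : 0 < η)
    (h1 : η ≤ 1) :
    η * cG X (fun F : V → Fin q => 20 * η * (Fintype.card Bl : ℝ) ≤
        ((univ.filter fun t : Bl => GDP (pt4 (β t) F) ∧ j ∈ ALP (pt4 (β t) F) ∧ i ∉ ALP (pt4 (β t) F) ∧
          ¬ FIN4 X (β t) F i j).card : ℝ)) ≤
      cG X (fun F : V → Fin q => η * (Fintype.card Bl : ℝ) ≤
        ((univ.filter fun t : Bl => ¬ GDP (pt4 (β t) F)).card : ℝ)) := by
  have hU : (Fintype.card Bl : ℝ) = ((univ : Finset Bl).card : ℝ) := by rw [Finset.card_univ]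
  set Z : ℝ := cG X (fun F : V → Fin q => η * (Fintype.card Bl : ℝ) ≤
        ((univ.filter fun t : Bl => ¬ GDP (pt4 (β t) F)).card : ℝ)) with hZ
  have hcard : (Fintype.card (V → Bool) : ℝ) = 2 ^ Fintype.card V := by
    rw [Fintype.card_fun, Fintype.card_bool, Nat.cast_pow]
    norm_num
  have hpos : (0 : ℝ) < Fintype.card (V → Bool) := by
    rw [hcard]
    positivity
  have inv : ∀ ω : V → Bool, cG X (fun F : V → Fin q => η * (Fintype.card Bl : ℝ) ≤
      ((univ.filter fun t : Bl => ¬ GDP (pt4 (β t) (fw X i j ω F))).card : ℝ)) = Z := by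
    intro ω
    rw [hZ]
    exact cG_fw X i j ω (fun F : V → Fin q => η * (Fintype.card Bl : ℝ) ≤
        ((univ.filter fun t : Bl => ¬ GDP (pt4 (β t) F)).card : ℝ))
  have main := F04_double (A := V → Fin q) (B := V → Bool)
    (fun F => PrG X F ∧ 20 * η * (Fintype.card Bl : ℝ) ≤
        ((univ.filter fun t : Bl => GDP (pt4 (β t) F) ∧ j ∈ ALP (pt4 (β t) F) ∧ i ∉ ALP (pt4 (β t) F) ∧
          ¬ FIN4 X (β t) F i j).card : ℝ))
    (fun F ω => PrG X F ∧ η * (Fintype.card Bl : ℝ) ≤
      ((univ.filter fun t : Bl => ¬ GDP (pt4 (β t) (fw X i j ω F))).card : ℝ))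
    (fun _ => Classical.propDecidable _) (fun _ _ => Classical.propDecidable _)
    (fun _ _ => Classical.propDecidable _)
    (η * (Fintype.card (V → Bool) : ℝ)) Z
    (by
      rintro F ⟨hf, hf'⟩
      rw [hU] at hf'
      have key := F04_markov (univ : Finset Bl)
        (univ.filter fun t : Bl => GDP (pt4 (β t) F) ∧ j ∈ ALP (pt4 (β t) F) ∧ i ∉ ALP (pt4 (β t) F) ∧
          ¬ FIN4 X (β t) F i j)
        (Finset.filter_subset _ _) (fun t (ω : V → Bool) => GDP (pt4 (β t) (fw X i j ω F)))
        (fun _ _ => Classical.propDecidable _) (fun _ _ => Classical.propDecidable _) η h0 h1 hf'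
        (by
          intro t ht
          rw [Finset.mem_filter] at ht
          rw [hcard]
          have h5 := not_fine4 hd hq hR hij ht.2.1 ht.2.2.1 ht.2.2.2.1 ht.2.2.2.2
          convert h5)
        (fun _ => Classical.propDecidable _)
      refine key.trans ?_
      rw [Nat.cast_le]
      refine Finset.card_le_card fun ω hω => ?_
      simp only [Finset.mem_filter] at hω ⊢
      refine ⟨hω.1, hf, ?_⟩
      rw [hU]
      convert hω.2)
    (by
      intro ω
      rw [← inv ω]
      unfold cG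
      rw [Nat.cast_le]
      refine Finset.card_le_card fun F hF => ?_
      simp only [Finset.mem_filter] at hF ⊢
      exact hF)
  have e3 : cG X (fun F : V → Fin q => 20 * η * (Fintype.card Bl : ℝ) ≤
        ((univ.filter fun t : Bl => GDP (pt4 (β t) F) ∧ j ∈ ALP (pt4 (β t) F) ∧ i ∉ ALP (pt4 (β t) F) ∧
          ¬ FIN4 X (β t) F i j).card : ℝ)) *
        (η * (Fintype.card (V → Bool) : ℝ)) ≤
      (Fintype.card (V → Bool) : ℝ) * Z := by
    refine le_trans (le_of_eq ?_) main
    unfold cG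
    congr 2
    congr 1
    ext F
    simp only [Finset.mem_filter]
  have e4 : (Fintype.card (V → Bool) : ℝ) *
      (η * cG X (fun F : V → Fin q => 20 * η * (Fintype.card Bl : ℝ) ≤
        ((univ.filter fun t : Bl => GDP (pt4 (β t) F) ∧ j ∈ ALP (pt4 (β t) F) ∧ i ∉ ALP (pt4 (β t) F) ∧
          ¬ FIN4 X (β t) F i j).card : ℝ))) ≤
      (Fintype.card (V → Bool) : ℝ) * Z := by
    refine le_trans (le_of_eq ?_) e3
    ring
  exact le_of_mul_le_mul_left e4 hpos

end Pool.Agent.LC
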