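import Pool.Agent.Lib_MP_2c424f_lc4.F02

/-!
# Part IV, F05: the flip `Ph4` and its multiplicity (as COR.D01, COR.D02, COR.D06)

Port of `Lib_MP_2c424f_cor/D01.lean`, `D02.lean`, `D06.lean`: replace `gV V` by `X`, `evn` by `ev`, `par_gV` by `hP : Par X ev`, `PrV V` by `PrG X`, `cV V` by
`cG X`; `wrg`, `csz`, `wbg`, `Phi`, `swp` are `wr4`, `cs4`, `wb4`, `Ph4`, `sw4`.
-/

set_option autoImplicit false

open Finset Filter

namespace Pool.Agent.LC

open Pool.Agent.LO Pool.Agent.LIN Pool.Agent.THR Pool.Agent.COR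

variable {V : Type} [Fintype V] [DecidableEq V] {q : ℕ} {X : SimpleGraph V} {ev : V → Prop}

theorem wr4_kcl (hP : Par X ev) {F : V → Fin q} (hF : PrG X F) {i j : Fin q} (hij : i ≠ j) {x y : V}
    (h : kcl X F i j x y) (hx : wr4 ev i j F x) : wr4 ev i j F y := by
  have hx' : F x = i ∨ F x = j := by
    rcases hx with hx | hx
    · exact Or.inr hx.1
    · exact Or.inl hx.1
  have hy' := kcl_mem h hx'
  have hc := kcl_col hP hF hx' h
  unfold wr4 at hx ⊢
  rcases hx with ⟨h1, h2⟩ | ⟨h1, h2⟩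
  · rcases hy' with h3 | h3
    · refine Or.inr ⟨h3, fun h4 => ?_⟩
      have h5 := hc.1 ⟨fun _ => h4, fun _ => h2⟩
      rw [h1, h3] at h5
      exact hij h5.symm
    · exact Or.inl ⟨h3, (hc.2 (by rw [h1, h3])).1 h2⟩
  · rcases hy' with h3 | h3
    · exact Or.inr ⟨h3, fun h4 => h2 ((hc.2 (by rw [h1, h3])).2 h4)⟩
    · refine Or.inl ⟨h3, ?_⟩
      by_contra h4
      have h5 := hc.1 ⟨fun h6 => absurd h6 h2, fun h6 => absurd h6 h4⟩
      rw [h1, h3] at h5
      exact hij h5

theorem cs4_kcl (X : SimpleGraph V) (U : Finset V) (i j : Fin q) (F : V → Fin q) {x y : V}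
    (h : kcl X F i j x y) : cs4 X U i j F x = cs4 X U i j F y := by
  classical
  unfold cs4
  congr 1
  ext z
  rw [Finset.mem_filter, Finset.mem_filter]
  exact ⟨fun hz => ⟨hz.1, kcl_trans (kcl_symm h) hz.2⟩, fun hz => ⟨hz.1, kcl_trans h hz.2⟩⟩

private theorem F05_mem (X : SimpleGraph V) (ev : V → Prop) (U : Finset V) (m : ℝ) (i j : Fin q)
    (F : V → Fin q) (x : V) : x ∈ wb4 X ev U m i j F ↔ wr4 ev i j F x ∧ m ≤ (cs4 X U i j F x : ℝ) := by
  classical
  unfold wb4
  rw [Finset.mem_filter]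
  exact ⟨fun h => h.2, fun h => ⟨Finset.mem_univ _, h⟩⟩

private theorem F05_cl (hP : Par X ev) (U : Finset V) (m : ℝ) {i j : Fin q} (hij : i ≠ j)
    {F : V → Fin q} (hF : PrG X F) {x y : V} (h : kcl X F i j x y)
    (hx : x ∈ wb4 X ev U m i j F) : y ∈ wb4 X ev U m i j F := by
  rw [F05_mem] at hx ⊢
  exact ⟨wr4_kcl hP hF hij h hx.1, by rw [← cs4_kcl X U i j F h]; exact hx.2⟩

private theorem F05_kun (hP : Par X ev) (U : Finset V) (m : ℝ) {i j : Fin q} (hij : i ≠ j)
    {F : V → Fin q} (hF : PrG X F) : kun X F i j (wb4 X ev U m i j F) := by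
  intro x y hxy
  exact ⟨F05_cl hP U m hij hF (Relation.ReflTransGen.single hxy),
    F05_cl hP U m hij hF (kcl_symm (Relation.ReflTransGen.single hxy))⟩

theorem PrG_Ph4 (hP : Par X ev) (U : Finset V) (m : ℝ) {i j : Fin q} (hij : i ≠ j) {F : V → Fin q}
    (hF : PrG X F) : PrG X (Ph4 X ev U m i j F) := by
  exact PrG_kfl hF i j (F05_kun hP U m hij hF)

private theorem F05_cs4 (X : SimpleGraph V) (ev : V → Prop) (U : Finset V) (m : ℝ) (i j : Fin q)
    (F : V → Fin q) (x : V) : cs4 X U i j (Ph4 X ev U m i j F) x = cs4 X U i j F x := by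
  classical
  unfold cs4 Ph4
  congr 1
  ext z
  rw [Finset.mem_filter, Finset.mem_filter, kcl_kfl]

private theorem F05_rpc (X : SimpleGraph V) (ev : V → Prop) (U : Finset V) (m : ℝ) (i j : Fin q)
    (F : V → Fin q) (x : V) : rpc X (Ph4 X ev U m i j F) i j x = rpc X F i j x := by
  unfold Ph4
  exact rpc_kfl _ _ _ _ _ _

open scoped Classical in
/-- representatives of the big clusters -/
private noncomputable def F05_B (X : SimpleGraph V) (U : Finset V) (m : ℝ) (i j : Fin q)
    (F : V → Fin q) : Finset V :=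
  (U.filter fun x => m ≤ (cs4 X U i j F x : ℝ)).image (rpc X F i j)

private theorem F05_card (X : SimpleGraph V) (U : Finset V) (m : ℝ) (hm : 0 < m) (i j : Fin q)
    (F : V → Fin q) : (F05_B X U m i j F).card ≤ ⌊(U.card : ℝ) / m⌋₊ := by
  classical
  rw [Nat.le_floor_iff (by positivity), le_div_iff₀ hm]
  set s := U.filter fun x => m ≤ (cs4 X U i j F x : ℝ) with hs
  have h1 : s.card = ∑ r ∈ F05_B X U m i j F, (s.filter fun x => rpc X F i j x = r).card := by
    refine Finset.card_eq_sum_card_fiberwise fun x hx => ?_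
    rw [Finset.mem_coe, hs, Finset.mem_filter] at hx
    rw [Finset.mem_coe]
    unfold F05_B
    refine Finset.mem_image_of_mem _ ?_
    rw [Finset.mem_filter]
    exact hx
  have h2 : ∀ r ∈ F05_B X U m i j F,
      m ≤ ((s.filter fun x => rpc X F i j x = r).card : ℝ) := by
    intro r hr
    unfold F05_B at hr
    obtain ⟨x, hx, rfl⟩ := Finset.mem_image.1 hr
    have hx' : x ∈ U ∧ m ≤ (cs4 X U i j F x : ℝ) := by
      rw [Finset.mem_filter] at hx
      exact hx
    refine hx'.2.trans ?_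
    rw [Nat.cast_le]
    unfold cs4
    refine Finset.card_le_card fun y hy => ?_
    rw [Finset.mem_filter] at hy
    rw [Finset.mem_filter, hs, Finset.mem_filter]
    refine ⟨⟨hy.1, ?_⟩, ((rpc_eq_iff X F i j x y).2 hy.2).symm⟩
    rw [← cs4_kcl X U i j F hy.2]
    exact hx'.2
  calc ((F05_B X U m i j F).card : ℝ) * m = ∑ _r ∈ F05_B X U m i j F, m := by
        rw [Finset.sum_const, nsmul_eq_mul]
    _ ≤ ∑ r ∈ F05_B X U m i j F, ((s.filter fun x => rpc X F i j x = r).card : ℝ) :=
        Finset.sum_le_sum h2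
    _ = (s.card : ℝ) := by
        rw [h1]
        push_cast
        rfl
    _ ≤ (U.card : ℝ) := by
        rw [Nat.cast_le]
        exact Finset.card_filter_le _ _

/-- `wb4 F` is determined by `Ph4 F` and the set of the representatives in it -/
private theorem F05_key (hP : Par X ev) (U : Finset V) (m : ℝ) (hm : 0 < m) {i j : Fin q}
    (hij : i ≠ j) {F : V → Fin q} (hF : PrG X F) (x : V) :
    x ∈ wb4 X ev U m i j F ↔ rpc X (Ph4 X ev U m i j F) i j x ∈
      (F05_B X U m i j (Ph4 X ev U m i j F) ∩ wb4 X ev U m i j F) := by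
  classical
  rw [F05_rpc, Finset.mem_inter]
  have hsp := rpc_spec X F i j x
  constructor
  · intro hx
    refine ⟨?_, F05_cl hP U m hij hF hsp hx⟩
    have hx2 := ((F05_mem X ev U m i j F x).1 hx).2
    have hpos : 0 < cs4 X U i j F x := by
      have : (0 : ℝ) < (cs4 X U i j F x : ℝ) := hm.trans_le hx2
      exact_mod_cast this
    unfold cs4 at hpos
    obtain ⟨y, hy⟩ := Finset.card_pos.1 hpos
    rw [Finset.mem_filter] at hy
    unfold F05_B
    rw [Finset.mem_image]
    refine ⟨y, ?_, ?_⟩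
    · rw [Finset.mem_filter]
      refine ⟨hy.1, ?_⟩
      rw [F05_cs4, ← cs4_kcl X U i j F hy.2]
      exact hx2
    · rw [F05_rpc]
      exact ((rpc_eq_iff X F i j x y).2 hy.2).symm
  · rintro ⟨-, hx⟩
    exact F05_cl hP U m hij hF (kcl_symm hsp) hx

theorem Ph4_mult (hP : Par X ev) (U : Finset V) (m : ℝ) (hm : 0 < m) {i j : Fin q} (hij : i ≠ j)
    (P : (V → Fin q) → Prop) :
    cG X (fun F => P (Ph4 X ev U m i j F)) ≤ 2 ^ ⌊(U.card : ℝ) / m⌋₊ * cG X P := by
  classical
  have main : (univ.filter fun F : V → Fin q => PrG X F ∧ P (Ph4 X ev U m i j F)).card ≤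
      2 ^ ⌊(U.card : ℝ) / m⌋₊ * (univ.filter fun F : V → Fin q => PrG X F ∧ P F).card := by
    refine Finset.card_le_mul_card_image_of_maps_to (f := Ph4 X ev U m i j) ?_ _ ?_
    · intro F hF
      rw [Finset.mem_filter] at hF ⊢
      exact ⟨Finset.mem_univ _, PrG_Ph4 hP U m hij hF.2.1, hF.2.2⟩
    · intro F' _
      calc ((univ.filter fun F : V → Fin q => PrG X F ∧ P (Ph4 X ev U m i j F)).filter
            fun F => Ph4 X ev U m i j F = F').card ≤ ((F05_B X U m i j F').powerset).card := by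
            refine Finset.card_le_card_of_injOn (fun F => F05_B X U m i j F' ∩ wb4 X ev U m i j F) ?_ ?_
            · intro F _
              rw [Finset.mem_coe, Finset.mem_powerset]
              exact Finset.inter_subset_left
            · intro f hf g hg hfg
              rw [Finset.mem_coe, Finset.mem_filter, Finset.mem_filter] at hf hg
              obtain ⟨⟨-, f1, -⟩, f2⟩ := hf
              obtain ⟨⟨-, g1, -⟩, g2⟩ := hg
              have hfg' : F05_B X U m i j F' ∩ wb4 X ev U m i j f =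
                F05_B X U m i j F' ∩ wb4 X ev U m i j g := hfg
              have hS : wb4 X ev U m i j f = wb4 X ev U m i j g := by
                ext x
                rw [F05_key hP U m hm hij f1 x, F05_key hP U m hm hij g1 x, f2, g2, hfg']
              have e1 : kfl i j (wb4 X ev U m i j f) F' = f := by
                rw [← f2]
                exact kfl_kfl i j _ f
              have e2 : kfl i j (wb4 X ev U m i j g) F' = g := by
                rw [← g2]
                exact kfl_kfl i j _ g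
              rw [← e1, ← e2, hS]
        _ = 2 ^ (F05_B X U m i j F').card := Finset.card_powerset _
        _ ≤ 2 ^ ⌊(U.card : ℝ) / m⌋₊ :=
            Nat.pow_le_pow_right (by norm_num) (F05_card X U m hm i j F')
  have h2 : ((univ.filter fun F : V → Fin q => PrG X F ∧ P (Ph4 X ev U m i j F)).card : ℝ) ≤
      2 ^ ⌊(U.card : ℝ) / m⌋₊ *
        ((univ.filter fun F : V → Fin q => PrG X F ∧ P F).card : ℝ) := by
    exact_mod_cast main
  have e1 : cG X (fun F => P (Ph4 X ev U m i j F)) =
      ((univ.filter fun F : V → Fin q => PrG X F ∧ P (Ph4 X ev U m i j F)).card : ℝ) := rfl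
  have e2 : cG X P = ((univ.filter fun F : V → Fin q => PrG X F ∧ P F).card : ℝ) := rfl
  rw [e1, e2]
  exact h2

theorem sw4_pr (hP : Par X ev) (U : Finset V) (m : ℝ) (pr : ℕ → Fin q × Fin q) (n : ℕ)
    (hpr : ∀ l < n, (pr l).1 ≠ (pr l).2) {F : V → Fin q} (hF : PrG X F) : PrG X (sw4 X ev U m pr n F) := by
  induction n with
  | zero => exact hF
  | succ n ih =>
    exact PrG_Ph4 hP U m (hpr n (Nat.lt_succ_self n))
      (ih fun l hl => hpr l (Nat.lt_succ_of_lt hl))

theorem sw4_mult (hP : Par X ev) (U : Finset V) (m : ℝ) (hm : 0 < m) (pr : ℕ → Fin q × Fin q) (n : ℕ)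
    (hpr : ∀ l < n, (pr l).1 ≠ (pr l).2) (P : (V → Fin q) → Prop) :
    cG X (fun F => P (sw4 X ev U m pr n F)) ≤ 2 ^ (n * ⌊(U.card : ℝ) / m⌋₊) * cG X P := by
  induction n generalizing P with
  | zero =>
    have h : cG X (fun F => P (sw4 X ev U m pr 0 F)) = cG X P := rfl
    rw [h, Nat.zero_mul, pow_zero, one_mul]
  | succ n ih =>
    have h1 := ih (fun l hl => hpr l (Nat.lt_succ_of_lt hl))
      (fun F => P (Ph4 X ev U m (pr n).1 (pr n).2 F))
    have h2 := Ph4_mult hP U m hm (hpr n (Nat.lt_succ_self n)) P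
    have h3 : cG X (fun F => P (sw4 X ev U m pr (n + 1) F)) =
        cG X (fun F => (fun F => P (Ph4 X ev U m (pr n).1 (pr n).2 F)) (sw4 X ev U m pr n F)) := rfl
    rw [h3, Nat.add_mul, Nat.one_mul, pow_add, mul_assoc]
    exact h1.trans (mul_le_mul_of_nonneg_left h2 (by positivity))

end Pool.Agent.LC
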