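import Pool.Agent.Lib_MP_2c424f_lc4.F05

/-!
# Part IV, F06: the labels of a block under `Ph4` (as COR.C08, COR.D03, COR.D04)

`i ∈ A₀`, `j ∉ A₀` later; `wr4`: even points of colour `j`, odd points of colour `i` (`i` is used at the odd points).
`ALP_Ph4_fine`: `c` from `FIN4`; at least `0.98 |oI b F i|` pairs of `oI` have `rpc = c`, `q |oI| ≥ 1.998 · 4^d/2` (`st_w1`, `GD4_iff`), each vertex is hit
by at most `2^d` pairs (`hfib`), so the cluster of `c` has at least `0.98 · 0.999 · 2^d / q ≥ 2^d/(2q) = sz d q` points in `U`, all odd of colour `i` among those: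
it is wrong (`wr4_kcl`) and big: all `y` with `rpc y = c` are in `wb4`.  After the flip an odd point of the block (`¬ ev`, `hpar`) has colour `i` only if it had
colour `i` and was not flipped (a flipped odd point had colour `i` by `wr4`, and gets `j`): at most `|oI|/50` pairs, so
`q |oI b F' i| ≤ 2.001/50 · 4^d/2 < 1.998 · 4^d/2`: `i` has not the label `true`, so `i ∈ ALP` (`GD4_iff`), and `ALP_bal` gives the rest.
`ALP_Ph4_same`: if `i ∈ ALP`, `j ∉ ALP`: an odd point of colour `j` is not wrong, so it keeps its colour: `|oI b F' j| ≥ |oI b F j|`, `q |oI b F' j| ≥ 1.998 · 4^d/2`,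
so `j ∉ ALP` of the new pattern (`st_w0`), and by `ALP_bal` `i` is in it.  If both or none of `i`, `j` are in `ALP`: `ALP_bal`.
-/

set_option autoImplicit false

open Finset Filter

namespace Pool.Agent.LC

open Pool.Agent.LO Pool.Agent.LIN Pool.Agent.THR Pool.Agent.COR

variable {V : Type} [Fintype V] [DecidableEq V] {d q : ℕ} {X : SimpleGraph V} {ev : V → Prop}

omit [Fintype V] in
private theorem F06_other {S : Finset V} {i j c : Fin q} (hi : c ≠ i) (hj : c ≠ j) (F : V → Fin q)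
    (x : V) : kfl i j S F x = c ↔ F x = c := by
  unfold kfl
  split_ifs
  · constructor
    · intro h
      by_cases h1 : F x = i
      · rw [h1, Equiv.swap_apply_left] at h
        exact absurd h.symm hj
      · by_cases h2 : F x = j
        · rw [h2, Equiv.swap_apply_right] at h
          exact absurd h.symm hi
        · rwa [Equiv.swap_apply_of_ne_of_ne h1 h2] at h
    · intro h
      rw [h, Equiv.swap_apply_of_ne_of_ne hi hj]
  · exact Iff.rfl

omit [DecidableEq V] in
private theorem F06_mem (U : Finset V) (m : ℝ) (i j : Fin q)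
    (F : V → Fin q) (x : V) : x ∈ wb4 X ev U m i j F ↔ wr4 ev i j F x ∧ m ≤ (cs4 X U i j F x : ℝ) := by
  classical
  unfold wb4
  rw [Finset.mem_filter]
  exact ⟨fun h => h.2, fun h => ⟨Finset.mem_univ _, h⟩⟩

omit [Fintype V] [DecidableEq V] in
private theorem F06_oI (b : Bt d → Bt d → V) (F : V → Fin q) (i : Fin q) (p : Bt d × Bt d) :
    p ∈ oI b F i ↔ od p.1 p.2 ∧ F (b p.1 p.2) = i := by
  classical
  unfold oI
  rw [Finset.mem_filter]
  exact ⟨fun h => h.2, fun h => ⟨Finset.mem_univ _, h⟩⟩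

/-- an odd point of colour `j` keeps its colour -/
private theorem F06_keep {U : Finset V} {m : ℝ} {F : V → Fin q} {i j : Fin q} (hij : i ≠ j)
    {x : V} (hx : ¬ ev x) (h : F x = j) : Ph4 X ev U m i j F x = j := by
  have h1 : x ∉ wb4 X ev U m i j F := by
    rw [F06_mem]
    rintro ⟨h2 | h2, -⟩
    · exact hx h2.2
    · exact hij (h2.1.symm.trans h)
  unfold Ph4 kfl
  rw [if_neg h1, h]

/-- an odd point which has colour `i` after the flip had it before and was not flipped -/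
private theorem F06_back {U : Finset V} {m : ℝ} {F : V → Fin q} {i j : Fin q} (hij : i ≠ j)
    {x : V} (hx : ¬ ev x) (h : Ph4 X ev U m i j F x = i) :
    F x = i ∧ x ∉ wb4 X ev U m i j F := by
  by_cases h1 : x ∈ wb4 X ev U m i j F
  · exfalso
    have h2 := ((F06_mem U m i j F x).1 h1).1
    unfold Ph4 kfl at h
    rw [if_pos h1] at h
    rcases h2 with h2 | h2
    · exact hx h2.2
    · rw [h2.1, Equiv.swap_apply_left] at h
      exact hij h.symm
  · unfold Ph4 kfl at h
    rw [if_neg h1] at h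
    exact ⟨h, h1⟩

private theorem F06_big (hq : 1 ≤ q) {U : Finset V} {F : V → Fin q} {i j : Fin q}
    {b : Bt d → Bt d → V} (hfib : ∀ v (T : Finset (Bt d × Bt d)), (∀ p ∈ T, b p.1 p.2 = v) →
      T.card ≤ 2 ^ d)
    (hU : ∀ x y, b x y ∈ U) (T : Finset (Bt d × Bt d)) (c : V)
    (hT : ∀ p ∈ T, rpc X F i j (b p.1 p.2) = c) (hc : (4 : ℝ) ^ d / 2 ≤ q * T.card)
    (p : Bt d × Bt d) (hp : p ∈ T) : sz d q ≤ (cs4 X U i j F (b p.1 p.2) : ℝ) := by
  classical
  have h1 : T.card ≤ 2 ^ d * (T.image fun p => b p.1 p.2).card := by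
    refine Finset.card_le_mul_card_image T (2 ^ d) ?_
    intro v _
    exact hfib v _ fun p hp => (Finset.mem_filter.1 hp).2
  have h2 : (T.image fun p => b p.1 p.2).card ≤ cs4 X U i j F (b p.1 p.2) := by
    unfold cs4
    refine Finset.card_le_card fun y hy => ?_
    obtain ⟨p', hp', rfl⟩ := Finset.mem_image.1 hy
    rw [Finset.mem_filter]
    refine ⟨hU _ _, ?_⟩
    rw [← rpc_eq_iff, hT p hp, hT p' hp']
  have h3 : (T.card : ℝ) ≤ 2 ^ d * (cs4 X U i j F (b p.1 p.2) : ℝ) := by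
    exact_mod_cast h1.trans (Nat.mul_le_mul_left _ h2)
  have hq0 : (0 : ℝ) < q := by exact_mod_cast hq
  have h4 : (4 : ℝ) ^ d = 2 ^ d * 2 ^ d := by
    rw [← mul_pow]
    norm_num
  have h5 : (0 : ℝ) < 2 ^ d := by positivity
  unfold sz
  rw [div_le_iff₀ (by positivity)]
  have h6 : (2 : ℝ) ^ d * 2 ^ d ≤ (cs4 X U i j F (b p.1 p.2) : ℝ) * (2 * q) * 2 ^ d := by
    rw [← h4]
    have h7 := mul_le_mul_of_nonneg_left h3 hq0.le
    nlinarith
  exact le_of_mul_le_mul_right h6 h5

open scoped Classical in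
theorem ALP_Ph4_fine (hd : 1 ≤ d) (hq : 1 ≤ q) (hR : Rg d q) (hP : Par X ev) {U : Finset V} {F : V → Fin q}
    (hF : PrG X F) {i j : Fin q} (hij : i ≠ j) {b : Bt d → Bt d → V} (hpar : ∀ x y, ev (b x y) ↔ ¬ od x y)
    (hfib : ∀ v, ((univ.filter fun p : Bt d × Bt d => b p.1 p.2 = v).card : ℝ) ≤ 2 ^ d)
    (hU : ∀ x y, b x y ∈ U) (h1 : GDP (pt4 b F)) (h2 : GDP (pt4 b (Ph4 X ev U (sz d q) i j F)))
    (hj : j ∈ ALP (pt4 b F)) (hi : i ∉ ALP (pt4 b F)) (hfi : FIN4 X b F i j) :
    ALP (pt4 b (Ph4 X ev U (sz d q) i j F)) = insert i ((ALP (pt4 b F)).erase j) := by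
  classical
  have hst := (GD4_iff hd hR h1.1 i).1 hi
  obtain ⟨hw1, hw2⟩ := st_w1 hd hR b F i hst
  obtain ⟨c, hc⟩ := hfi
  have h4 : (0 : ℝ) < 4 ^ d := by positivity
  have hq0 : (0 : ℝ) < q := by exact_mod_cast hq
  set T : Finset (Bt d × Bt d) := (oI b F i).filter fun p => rpc X F i j (b p.1 p.2) = c with hTd
  set T' : Finset (Bt d × Bt d) := (oI b F i).filter fun p => rpc X F i j (b p.1 p.2) ≠ c with hTd'
  have hTT : T.card + T'.card = (oI b F i).card := Finset.card_filter_add_card_filter_not _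
  have hTT' : (T.card : ℝ) + (T'.card : ℝ) = ((oI b F i).card : ℝ) := by exact_mod_cast hTT
  have hTc : (4 : ℝ) ^ d / 2 ≤ q * T.card := by
    have h5 : (T.card : ℝ) = ((oI b F i).card : ℝ) - (T'.card : ℝ) := by linarith
    have h6 : (49 / 50 : ℝ) * ((oI b F i).card : ℝ) ≤ (T.card : ℝ) := by
      rw [h5]
      linarith
    have h7 := mul_le_mul_of_nonneg_left h6 hq0.le
    nlinarith
  have hfib' : ∀ v (T : Finset (Bt d × Bt d)), (∀ p ∈ T, b p.1 p.2 = v) → T.card ≤ 2 ^ d := by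
    intro v S hS
    have h5 := hfib v
    have h6 : S.card ≤ (univ.filter fun p : Bt d × Bt d => b p.1 p.2 = v).card :=
      Finset.card_le_card fun p hp => by
        rw [Finset.mem_filter]
        exact ⟨Finset.mem_univ _, hS p hp⟩
    have h7 : (S.card : ℝ) ≤ 2 ^ d := (Nat.cast_le.2 h6).trans h5
    exact_mod_cast h7
  have hTw : ∀ p ∈ T, b p.1 p.2 ∈ wb4 X ev U (sz d q) i j F := by
    intro p hp
    have hp1 := (Finset.mem_filter.1 hp).1
    rw [F06_oI] at hp1
    rw [F06_mem]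
    refine ⟨Or.inr ⟨hp1.2, fun h => (hpar _ _).1 h hp1.1⟩, ?_⟩
    exact F06_big hq hfib' hU T c (fun p hp => (Finset.mem_filter.1 hp).2) hTc p hp
  have hsub : oI b (Ph4 X ev U (sz d q) i j F) i ⊆ T' := by
    intro p hp
    rw [F06_oI] at hp
    have h5 := F06_back hij (fun h => (hpar _ _).1 h hp.1) hp.2
    have h6 : p ∈ oI b F i := (F06_oI b F i p).2 ⟨hp.1, h5.1⟩
    rw [hTd', Finset.mem_filter]
    refine ⟨h6, fun h7 => h5.2 (hTw p ?_)⟩
    rw [hTd, Finset.mem_filter]
    exact ⟨h6, h7⟩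
  have hiA : i ∈ ALP (pt4 b (Ph4 X ev U (sz d q) i j F)) := by
    by_contra hn
    have h5 := (GD4_iff hd hR h2.1 i).1 hn
    obtain ⟨h6, -⟩ := st_w1 hd hR b (Ph4 X ev U (sz d q) i j F) i h5
    have h7 : ((oI b (Ph4 X ev U (sz d q) i j F) i).card : ℝ) ≤ (T'.card : ℝ) :=
      Nat.cast_le.2 (Finset.card_le_card hsub)
    have h8 : ((oI b (Ph4 X ev U (sz d q) i j F) i).card : ℝ) ≤
        1 / 50 * ((oI b F i).card : ℝ) := h7.trans hc
    have h9 := mul_le_mul_of_nonneg_left h8 hq0.le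
    nlinarith
  obtain ⟨hb1, hb2⟩ := ALP_bal hij (pt4 b F) (pt4 b (Ph4 X ev U (sz d q) i j F))
    (fun x y c hi hj => F06_other hi hj F (b x y)) (h2.2.trans h1.2.symm)
  have hjA : j ∉ ALP (pt4 b (Ph4 X ev U (sz d q) i j F)) := by
    intro h5
    rw [if_pos hiA, if_pos h5, if_neg hi, if_pos hj] at hb2
    omega
  ext x
  rw [Finset.mem_insert, Finset.mem_erase]
  by_cases hxi : x = i
  · subst hxi
    exact ⟨fun _ => Or.inl rfl, fun _ => hiA⟩
  · by_cases hxj : x = j
    · subst hxj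
      exact ⟨fun h => absurd h hjA, fun h => by
        rcases h with h | h
        · exact absurd h hxi
        · exact absurd rfl h.1⟩
    · rw [hb1 x hxi hxj]
      exact ⟨fun h => Or.inr ⟨hxj, h⟩, fun h => by
        rcases h with h | h
        · exact absurd h hxi
        · exact h.2⟩

open scoped Classical in
theorem ALP_Ph4_same (hd : 1 ≤ d) (hq : 1 ≤ q) (hR : Rg d q) (hP : Par X ev) {U : Finset V} (m : ℝ) {F : V → Fin q}
    {i j : Fin q} (hij : i ≠ j) {b : Bt d → Bt d → V} (hpar : ∀ x y, ev (b x y) ↔ ¬ od x y)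
    (h1 : GDP (pt4 b F)) (h2 : GDP (pt4 b (Ph4 X ev U m i j F)))
    (h : ¬ (j ∈ ALP (pt4 b F) ∧ i ∉ ALP (pt4 b F))) :
    ALP (pt4 b (Ph4 X ev U m i j F)) = ALP (pt4 b F) := by
  classical
  have h4 : (0 : ℝ) < 4 ^ d := by positivity
  have hq0 : (0 : ℝ) < q := by exact_mod_cast hq
  obtain ⟨hb1, hb2⟩ := ALP_bal hij (pt4 b F) (pt4 b (Ph4 X ev U m i j F))
    (fun x y c hi hj => F06_other hi hj F (b x y)) (h2.2.trans h1.2.symm)
  have key : (i ∈ ALP (pt4 b (Ph4 X ev U m i j F)) ↔ i ∈ ALP (pt4 b F)) ∧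
      (j ∈ ALP (pt4 b (Ph4 X ev U m i j F)) ↔ j ∈ ALP (pt4 b F)) := by
    by_cases hi : i ∈ ALP (pt4 b F)
    · by_cases hj : j ∈ ALP (pt4 b F)
      · rw [if_pos hi, if_pos hj] at hb2
        by_cases h5 : i ∈ ALP (pt4 b (Ph4 X ev U m i j F))
        · by_cases h6 : j ∈ ALP (pt4 b (Ph4 X ev U m i j F))
          · exact ⟨⟨fun _ => hi, fun _ => h5⟩, ⟨fun _ => hj, fun _ => h6⟩⟩
          · rw [if_pos h5, if_neg h6] at hb2
            omega
        · rw [if_neg h5] at hb2
          split_ifs at hb2 <;> omega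
      · have hst := (GD4_iff hd hR h1.1 j).1 hj
        obtain ⟨hw1, -⟩ := st_w1 hd hR b F j hst
        have hsub : oI b F j ⊆ oI b (Ph4 X ev U m i j F) j := by
          intro p hp
          rw [F06_oI] at hp ⊢
          exact ⟨hp.1, F06_keep hij (fun h => (hpar _ _).1 h hp.1) hp.2⟩
        have h6 : j ∉ ALP (pt4 b (Ph4 X ev U m i j F)) := by
          intro h7
          rw [ALP_iff] at h7
          have h8 := st_w0 hd hR b (Ph4 X ev U m i j F) j h7
          have h9 : ((oI b F j).card : ℝ) ≤ ((oI b (Ph4 X ev U m i j F) j).card : ℝ) :=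
            Nat.cast_le.2 (Finset.card_le_card hsub)
          have h10 := mul_le_mul_of_nonneg_left h9 hq0.le
          nlinarith
        rw [if_pos hi, if_neg hj, if_neg h6] at hb2
        have h5 : i ∈ ALP (pt4 b (Ph4 X ev U m i j F)) := by
          by_contra h7
          rw [if_neg h7] at hb2
          omega
        exact ⟨⟨fun _ => hi, fun _ => h5⟩, ⟨fun h => absurd h h6, fun h => absurd h hj⟩⟩
    · have hj : j ∉ ALP (pt4 b F) := fun hj => h ⟨hj, hi⟩
      rw [if_neg hi, if_neg hj] at hb2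
      by_cases h5 : i ∈ ALP (pt4 b (Ph4 X ev U m i j F))
      · rw [if_pos h5] at hb2
        split_ifs at hb2 <;> omega
      · by_cases h6 : j ∈ ALP (pt4 b (Ph4 X ev U m i j F))
        · rw [if_neg h5, if_pos h6] at hb2
          omega
        · exact ⟨⟨fun h => absurd h h5, fun h => absurd h hi⟩,
            ⟨fun h => absurd h h6, fun h => absurd h hj⟩⟩
  ext x
  by_cases hxi : x = i
  · rw [hxi]
    exact key.1
  · by_cases hxj : x = j
    · rw [hxj]
      exact key.2
    · exact hb1 x hxi hxj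

end Pool.Agent.LC
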