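import Pool.Agent.Lib_MP_2c424f_lc4.F04
import Pool.Agent.Lib_MP_2c424f_lc4.F06
import Pool.Agent.Lib_MP_2c424f_cor.D05

/-!
# Part IV, F07: a regular sweep aligns the blocks; alignment (as COR.D07, COR.D08)

Port of `Lib_MP_2c424f_cor/D07.lean` (`sweep_blocks`) and `D08.lean` (`align`) with one family of blocks (`univ : Finset Bl`, no `irr` over several families), `GDP` in
place of `VG` and of `GD`, `sz d q` in place of `s0 d`; `sweep`, `enum` of `COR.D05` are used as they are.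
Then `alignG`: `M = (q/2)² ≤ q²/4` (equality, `q` even), `2^{M ⌊|U|/s₀⌋} ≤ cK d q |U|` (`cK` is a real power), `21 (M+1) ≤ 22 (q²/4 + 1)`.
The case `Fintype.card Bl = 0`: the left side of `hp` is everything, fine, or note that the statement is trivial (`0 ≤ 0`).
`q ≥ 1`: if `q = 0` and there is no function `V → Fin 0` all counts vanish; if `V` is empty ... (`q = 0` gives `hU` vacuous; both sides are counts of the
unique function): treat `q = 0` separately: `Rg d 0` means `2 d ≤ 0`, impossible for `1 ≤ d`.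
-/

set_option autoImplicit false

open Finset Filter

namespace Pool.Agent.LC

open Pool.Agent.LO Pool.Agent.LIN Pool.Agent.THR Pool.Agent.COR

variable {V Bl : Type} [Fintype V] [DecidableEq V] [Fintype Bl] {d q : ℕ} {X : SimpleGraph V} {ev : V → Prop}

open scoped Classical in
theorem sweep_blocks4 (hd : 1 ≤ d) (hq : 1 ≤ q) (hR : Rg d q) (hP : Par X ev) (U : Finset V)
    (A₀ : Finset (Fin q)) (hA : A₀.card = q / 2) (pr : ℕ → Fin q × Fin q) (M : ℕ)
    (hpr : ∀ m < M, (pr m).1 ∈ A₀ ∧ (pr m).2 ∉ A₀)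
    (hall : ∀ i ∈ A₀, ∀ j, j ∉ A₀ → ∃ m < M, pr m = (i, j)) (β : Bl → Bt d → Bt d → V)
    (hpar : ∀ t a b, ev (β t a b) ↔ ¬ od a b)
    (hfib : ∀ t v, ((univ.filter fun p : Bt d × Bt d => β t p.1 p.2 = v).card : ℝ) ≤ 2 ^ d)
    (hU : ∀ t a b, β t a b ∈ U) (θ θ' : ℝ) (h0 : 0 < θ) (h2 : 21 * ((M : ℝ) + 1) * θ ≤ θ')
    {F : V → Fin q} (hF : PrG X F)
    (r1 : ∀ m ≤ M, ((univ.filter fun t : Bl => ¬ GDP (pt4 (β t) (sw4 X ev U (sz d q) pr m F))).card : ℝ) ≤
      θ * Fintype.card Bl)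
    (r2 : ∀ m < M, ((univ.filter fun t : Bl => GDP (pt4 (β t) (sw4 X ev U (sz d q) pr m F)) ∧
      (pr m).2 ∈ ALP (pt4 (β t) (sw4 X ev U (sz d q) pr m F)) ∧
      (pr m).1 ∉ ALP (pt4 (β t) (sw4 X ev U (sz d q) pr m F)) ∧
      ¬ FIN4 X (β t) (sw4 X ev U (sz d q) pr m F) (pr m).1 (pr m).2).card : ℝ) ≤ 20 * θ * Fintype.card Bl) :
    ((univ.filter fun t : Bl => ¬ (GDP (pt4 (β t) (sw4 X ev U (sz d q) pr M F)) ∧
      ALP (pt4 (β t) (sw4 X ev U (sz d q) pr M F)) = A₀)).card : ℝ) ≤ θ' * Fintype.card Bl := by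
  have hne : ∀ m < M, (pr m).1 ≠ (pr m).2 := by
    intro m hm h
    exact (hpr m hm).2 (h ▸ (hpr m hm).1)
  -- the exceptional sets
  set E1 : ℕ → Finset Bl := fun m => univ.filter fun t => ¬ GDP (pt4 (β t) (sw4 X ev U (sz d q) pr m F)) with hE1
  set E2 : ℕ → Finset Bl := fun m => univ.filter fun t => GDP (pt4 (β t) (sw4 X ev U (sz d q) pr m F)) ∧
      (pr m).2 ∈ ALP (pt4 (β t) (sw4 X ev U (sz d q) pr m F)) ∧
      (pr m).1 ∉ ALP (pt4 (β t) (sw4 X ev U (sz d q) pr m F)) ∧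
      ¬ FIN4 X (β t) (sw4 X ev U (sz d q) pr m F) (pr m).1 (pr m).2 with hE2
  have hcov : (univ.filter fun t : Bl => ¬ (GDP (pt4 (β t) (sw4 X ev U (sz d q) pr M F)) ∧
      ALP (pt4 (β t) (sw4 X ev U (sz d q) pr M F)) = A₀)) ⊆ (range (M + 1)).biUnion E1 ∪ (range M).biUnion E2 := by
    intro t ht
    by_cases hb1 : t ∈ (range (M + 1)).biUnion E1
    · exact mem_union_left _ hb1
    by_cases hb2 : t ∈ (range M).biUnion E2
    · exact mem_union_right _ hb2
    exfalso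
    have hv : ∀ m ≤ M, GDP (pt4 (β t) (sw4 X ev U (sz d q) pr m F)) := by
      intro m hm
      by_contra hcon
      apply hb1
      rw [mem_biUnion]
      exact ⟨m, mem_range.2 (by omega), mem_filter.2 ⟨mem_univ _, hcon⟩⟩
    have hfine : ∀ m < M, (pr m).2 ∈ ALP (pt4 (β t) (sw4 X ev U (sz d q) pr m F)) →
        (pr m).1 ∉ ALP (pt4 (β t) (sw4 X ev U (sz d q) pr m F)) →
        FIN4 X (β t) (sw4 X ev U (sz d q) pr m F) (pr m).1 (pr m).2 := by
      intro m hm hj hi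
      by_contra hcon
      apply hb2
      rw [mem_biUnion]
      exact ⟨m, mem_range.2 hm, mem_filter.2 ⟨mem_univ _, hv m hm.le, hj, hi, hcon⟩⟩
    refine (mem_filter.1 ht).2 ⟨hv M le_rfl, ?_⟩
    refine sweep A₀ pr hpr hall (fun m => ALP (pt4 (β t) (sw4 X ev U (sz d q) pr m F))) ?_ ?_ ?_
    · rw [hA]
      exact (hv M le_rfl).2
    · intro m hm hj hi
      exact ALP_Ph4_fine hd hq hR hP (sw4_pr hP U (sz d q) pr m (fun l hl => hne l (by omega)) hF) (hne m hm)
        (hpar t) (hfib t) (hU t) (hv m hm.le) (hv (m + 1) hm) hj hi (hfine m hm hj hi)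
    · intro m hm h
      exact ALP_Ph4_same hd hq hR hP (sz d q) (hne m hm) (hpar t) (hv m hm.le) (hv (m + 1) hm) h
  have hc1 : (((range (M + 1)).biUnion E1).card : ℝ) ≤ ((M : ℝ) + 1) * (θ * Fintype.card Bl) := by
    calc (((range (M + 1)).biUnion E1).card : ℝ) ≤ ((∑ m ∈ range (M + 1), (E1 m).card : ℕ) : ℝ) := by
          exact_mod_cast card_biUnion_le
      _ = ∑ m ∈ range (M + 1), ((E1 m).card : ℝ) := by push_cast; rfl
      _ ≤ ∑ m ∈ range (M + 1), (θ * Fintype.card Bl) := by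
          apply sum_le_sum
          intro m hm
          exact r1 m (by rw [mem_range] at hm; omega)
      _ = ((M : ℝ) + 1) * (θ * Fintype.card Bl) := by
          rw [sum_const, card_range, nsmul_eq_mul]; push_cast; ring
  have hc2 : (((range M).biUnion E2).card : ℝ) ≤ (M : ℝ) * (20 * θ * Fintype.card Bl) := by
    calc (((range M).biUnion E2).card : ℝ) ≤ ((∑ m ∈ range M, (E2 m).card : ℕ) : ℝ) := by
          exact_mod_cast card_biUnion_le
      _ = ∑ m ∈ range M, ((E2 m).card : ℝ) := by push_cast; rfl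
      _ ≤ ∑ m ∈ range M, (20 * θ * Fintype.card Bl) := by
          apply sum_le_sum
          intro m hm
          exact r2 m (by rw [mem_range] at hm; omega)
      _ = (M : ℝ) * (20 * θ * Fintype.card Bl) := by
          rw [sum_const, card_range, nsmul_eq_mul]
  have hc : ((univ.filter fun t : Bl => ¬ (GDP (pt4 (β t) (sw4 X ev U (sz d q) pr M F)) ∧
      ALP (pt4 (β t) (sw4 X ev U (sz d q) pr M F)) = A₀)).card : ℝ) ≤ (((range (M + 1)).biUnion E1).card : ℝ) +
      (((range M).biUnion E2).card : ℝ) := by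
    exact_mod_cast (card_le_card hcov).trans (card_union_le _ _)
  have hQ0 : (0 : ℝ) ≤ (Fintype.card Bl : ℝ) := by positivity
  have h4 : 21 * ((M : ℝ) + 1) * θ * Fintype.card Bl ≤ θ' * Fintype.card Bl := mul_le_mul_of_nonneg_right h2 hQ0
  have h5 : 0 ≤ θ * (Fintype.card Bl : ℝ) := mul_nonneg h0.le hQ0
  nlinarith [hc, hc1, hc2, h4, h5]

end Pool.Agent.LC
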