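import Pool.Agent.Lib_MP_2c424f_lc4.F07

/-!
# Part IV, F08: alignment (as COR.D08)

Port of `Lib_MP_2c424f_cor/D08.lean` (`align`) with one family of blocks.  `M = (q/2)² = q²/4` (`q` even), `pr` from `enum`, `n₀ = ⌊|U|/sz⌋`.
For `m ≤ M`: `#{F : θ |Bl| ≤ #{t : ¬ GDP (F_m)}} ≤ 2^{m n₀} p Z` (`sw4_mult`, `hp`).  For `m < M`: `few_not_fine4` and `sw4_mult`: at most `2^{m n₀} (1/θ) p Z`.
Sum: `(M+1) 2^{M n₀} (1 + 1/θ) p Z ≤ 2 (M+1) cK p Z / θ ≤ Z/2` by `hs` (`2^{M n₀} ≤ cK d q |U|`, a real power with the exponent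
`(q²/4) |U|/sz ≥ M n₀`).  The other `F` satisfy the hypotheses of `sweep_blocks4` with `θ' = 22 (q²/4+1) θ` (strict inequalities give `≤`); `sw4_mult` with `n = M`.
-/

set_option autoImplicit false

open Finset Filter

namespace Pool.Agent.LC

open Pool.Agent.LO Pool.Agent.LIN Pool.Agent.THR Pool.Agent.COR

private theorem F08_nn {V : Type} [Fintype V] [DecidableEq V] {q : ℕ} (X : SimpleGraph V) (P : (V → Fin q) → Prop) :
    0 ≤ cG X P := by
  unfold cG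
  exact Nat.cast_nonneg _

open scoped Classical in
private theorem F08_mem {V : Type} [Fintype V] [DecidableEq V] {q : ℕ} (X : SimpleGraph V) (P : (V → Fin q) → Prop)
    (F : V → Fin q) : F ∈ (univ.filter fun f : V → Fin q => PrG X f ∧ P f) ↔ PrG X F ∧ P F := by
  rw [mem_filter]
  exact ⟨fun h => h.2, fun h => ⟨mem_univ _, h⟩⟩

private theorem F08_mono {V : Type} [Fintype V] [DecidableEq V] {q : ℕ} {X : SimpleGraph V}
    {P P' : (V → Fin q) → Prop} (h : ∀ F, PrG X F → P F → P' F) : cG X P ≤ cG X P' := by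
  classical
  unfold cG
  rw [Nat.cast_le]
  refine card_le_card fun F hF => ?_
  rw [mem_filter] at hF ⊢
  exact ⟨hF.1, hF.2.1, h F hF.2.1 hF.2.2⟩

private theorem F08_or {V : Type} [Fintype V] [DecidableEq V] {q : ℕ} (X : SimpleGraph V)
    (P P' : (V → Fin q) → Prop) : cG X (fun F => P F ∨ P' F) ≤ cG X P + cG X P' := by
  classical
  unfold cG
  rw [← Nat.cast_add, Nat.cast_le]
  refine le_trans (card_le_card fun F hF => ?_) (card_union_le _ _)
  obtain ⟨h1, h2⟩ := (F08_mem X _ F).1 hF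
  rw [mem_union]
  rcases h2 with h | h
  · exact Or.inl ((F08_mem X _ F).2 ⟨h1, h⟩)
  · exact Or.inr ((F08_mem X _ F).2 ⟨h1, h⟩)

private theorem F08_ex {V : Type} [Fintype V] [DecidableEq V] {q : ℕ} (X : SimpleGraph V) (n : ℕ)
    (P : ℕ → (V → Fin q) → Prop) : cG X (fun F => ∃ m < n, P m F) ≤ ∑ m ∈ range n, cG X (P m) := by
  induction n with
  | zero =>
    rw [range_zero, sum_empty]
    unfold cG
    refine le_of_eq (Nat.cast_eq_zero.2 (card_eq_zero.2 (eq_empty_of_forall_notMem fun F hF => ?_)))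
    obtain ⟨-, m, hm, -⟩ := (F08_mem X _ F).1 hF
    exact absurd hm (Nat.not_lt_zero _)
  | succ n ih =>
    rw [sum_range_succ]
    refine le_trans ?_ (add_le_add_left ih _)
    refine le_trans (F08_mono ?_) (F08_or X _ _)
    rintro F - ⟨m, hm, h⟩
    rcases Nat.lt_succ_iff_lt_or_eq.1 hm with h1 | h1
    · exact Or.inl ⟨m, h1, h⟩
    · exact Or.inr (h1 ▸ h)

private theorem F08_pow {d q : ℕ} (hq : Even q) (u : ℕ) :
    (2 : ℝ) ^ ((q / 2) ^ 2 * ⌊(u : ℝ) / sz d q⌋₊) ≤ cK d q u ∧ (((q / 2) ^ 2 : ℕ) : ℝ) = (q : ℝ) ^ 2 / 4 := by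
  have hM : (((q / 2) ^ 2 : ℕ) : ℝ) = (q : ℝ) ^ 2 / 4 := by
    obtain ⟨r, rfl⟩ := hq
    have h1 : (r + r) / 2 = r := by omega
    rw [h1]
    push_cast
    ring
  refine ⟨?_, hM⟩
  have hs : 0 ≤ sz d q := by
    unfold sz
    positivity
  have h1 : (⌊(u : ℝ) / sz d q⌋₊ : ℝ) ≤ u / sz d q := Nat.floor_le (div_nonneg (Nat.cast_nonneg _) hs)
  have h2 : (((q / 2) ^ 2 * ⌊(u : ℝ) / sz d q⌋₊ : ℕ) : ℝ) ≤ (q : ℝ) ^ 2 / 4 * u / sz d q := by
    rw [Nat.cast_mul, hM, mul_div_assoc]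
    exact mul_le_mul_of_nonneg_left h1 (by positivity)
  unfold cK
  rw [← Real.rpow_natCast]
  exact Real.rpow_le_rpow_of_exponent_le (by norm_num) h2

open scoped Classical in
private def F08_P1 {V Bl : Type} [Fintype V] [DecidableEq V] [Fintype Bl] {d q : ℕ} (β : Bl → Bt d → Bt d → V) (θ : ℝ)
    (F : V → Fin q) : Prop :=
  θ * (Fintype.card Bl : ℝ) ≤ ((univ.filter fun t : Bl => ¬ GDP (pt4 (β t) F)).card : ℝ)

open scoped Classical in
private def F08_P2 {V Bl : Type} [Fintype V] [DecidableEq V] [Fintype Bl] {d q : ℕ} (X : SimpleGraph V)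
    (β : Bl → Bt d → Bt d → V) (θ : ℝ) (i j : Fin q) (F : V → Fin q) : Prop :=
  20 * θ * (Fintype.card Bl : ℝ) ≤ ((univ.filter fun t : Bl => GDP (pt4 (β t) F) ∧ j ∈ ALP (pt4 (β t) F) ∧
    i ∉ ALP (pt4 (β t) F) ∧ ¬ FIN4 X (β t) F i j).card : ℝ)

open scoped Classical in
private def F08_P3 {V Bl : Type} [Fintype V] [DecidableEq V] [Fintype Bl] {d q : ℕ} (β : Bl → Bt d → Bt d → V)
    (A₀ : Finset (Fin q)) (θ' : ℝ) (F : V → Fin q) : Prop :=
  ((univ.filter fun t : Bl => ¬ (GDP (pt4 (β t) F) ∧ ALP (pt4 (β t) F) = A₀)).card : ℝ) ≤ θ' * Fintype.card Bl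

private theorem F08_main {d q : ℕ} (hd : 1 ≤ d) (hR : Rg d q) (V Bl : Type) [Fintype V] [DecidableEq V] [Fintype Bl]
    (X : SimpleGraph V) (ev : V → Prop) (hP : Par X ev) (β : Bl → Bt d → Bt d → V)
    (hpar : ∀ t a b, ev (β t a b) ↔ ¬ od a b)
    (hfib : ∀ t v, ((univ.filter fun p : Bt d × Bt d => β t p.1 p.2 = v).card : ℝ) ≤ 2 ^ d)
    (U : Finset V) (hU : ∀ t a b, β t a b ∈ U) (A₀ : Finset (Fin q)) (hA : A₀.card = q / 2)
    (θ p : ℝ) (hθ : 0 < θ) (hθ1 : θ ≤ 1)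
    (hp : cG X (F08_P1 (q := q) β θ) ≤ p * cG X (fun _ : V → Fin q => True))
    (hs : 4 * ((q : ℝ) ^ 2 / 4 + 1) * cK d q U.card * p / θ ≤ 1) :
    1 / (2 * cK d q U.card) * cG X (fun _ : V → Fin q => True) ≤
      cG X (F08_P3 (q := q) β A₀ (22 * ((q : ℝ) ^ 2 / 4 + 1) * θ)) := by
  classical
  have hq : 1 ≤ q := by
    obtain ⟨-, -, h⟩ := hR
    omega
  have hq0 : (0 : ℝ) < q := by exact_mod_cast hq
  obtain ⟨hWK, hMr⟩ := F08_pow (d := d) hR.1 U.card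
  set M : ℕ := (q / 2) ^ 2 with hM
  set n0 : ℕ := ⌊(U.card : ℝ) / sz d q⌋₊ with hn0
  set Z : ℝ := cG X (fun _ : V → Fin q => True) with hZ
  set K : ℝ := cK d q U.card with hK
  have hZ0 : 0 ≤ Z := F08_nn _ _
  have hs0 : 0 < sz d q := by
    unfold sz
    positivity
  have hMA : A₀.card * (q - A₀.card) = M := by
    obtain ⟨r, hr⟩ := hR.1
    rw [hA, hM, pow_two]
    congr 1
    omega
  obtain ⟨pr, hpr, hall⟩ := enum (q := q) hq A₀
  rw [hMA] at hpr hall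
  have hne : ∀ l < M, (pr l).1 ≠ (pr l).2 := by
    intro l hl h
    obtain ⟨h3, h4⟩ := hpr l hl
    exact h4 (h ▸ h3)
  have hK0 : 0 < K := lt_of_lt_of_le (by positivity) hWK
  have hWm : ∀ m ≤ M, (2 : ℝ) ^ (m * n0) ≤ K := by
    intro m hm
    exact le_trans (pow_le_pow_right₀ (by norm_num) (Nat.mul_le_mul_right _ hm)) hWK
  have hpZ : 0 ≤ p * Z := le_trans (F08_nn _ _) hp
  -- irregular steps
  have hB1 : ∀ m ∈ range (M + 1), cG X (fun F => F08_P1 β θ (sw4 X ev U (sz d q) pr m F)) ≤ K * (p * Z) := by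
    intro m hm
    have hm' : m ≤ M := Nat.lt_succ_iff.1 (mem_range.1 hm)
    refine (sw4_mult hP U (sz d q) hs0 pr m (fun l hl => hne l (by omega)) (F08_P1 β θ)).trans ?_
    exact mul_le_mul (hWm m hm') hp (F08_nn _ _) hK0.le
  have hB2 : ∀ m ∈ range M, cG X (fun F => F08_P2 X β θ (pr m).1 (pr m).2 (sw4 X ev U (sz d q) pr m F)) ≤
      K * (p * Z / θ) := by
    intro m hm
    have hm' : m < M := mem_range.1 hm
    refine (sw4_mult hP U (sz d q) hs0 pr m (fun l hl => hne l (by omega))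
      (F08_P2 X β θ (pr m).1 (pr m).2)).trans ?_
    refine mul_le_mul (hWm m hm'.le) ?_ (F08_nn _ _) hK0.le
    have h3 : θ * cG X (F08_P2 X β θ (pr m).1 (pr m).2) ≤ cG X (F08_P1 (q := q) β θ) :=
      few_not_fine4 hd hq hR X β (hne m hm') θ hθ hθ1
    rw [le_div_iff₀ hθ]
    linarith
  obtain ⟨BAD, hBAD⟩ : ∃ BAD : (V → Fin q) → Prop, BAD = fun F =>
    (∃ m < M + 1, F08_P1 β θ (sw4 X ev U (sz d q) pr m F)) ∨
      ∃ m < M, F08_P2 X β θ (pr m).1 (pr m).2 (sw4 X ev U (sz d q) pr m F) := ⟨_, rfl⟩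
  have hbad : cG X BAD ≤ Z / 2 := by
    have h3 : cG X BAD ≤ (M + 1 : ℕ) * (K * (p * Z)) + (M : ℕ) * (K * (p * Z / θ)) := by
      rw [hBAD]
      refine (F08_or X _ _).trans (add_le_add ?_ ?_)
      · refine (F08_ex X (M + 1) _).trans ((sum_le_sum hB1).trans (le_of_eq ?_))
        rw [sum_const, card_range, nsmul_eq_mul]
      · refine (F08_ex X M _).trans ((sum_le_sum hB2).trans (le_of_eq ?_))
        rw [sum_const, card_range, nsmul_eq_mul]
    have hM0 : (0 : ℝ) ≤ (M : ℕ) := Nat.cast_nonneg _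
    have hdiv : p * Z ≤ p * Z / θ := by
      rw [le_div_iff₀ hθ]
      exact mul_le_of_le_one_right hpZ hθ1
    have h4 : 4 * ((M : ℝ) + 1) * K * (p * Z / θ) ≤ Z := by
      have h5 := mul_le_mul_of_nonneg_right hs hZ0
      rw [← hMr, one_mul] at h5
      refine le_trans (le_of_eq ?_) h5
      ring
    have h5 : (M + 1 : ℕ) * (K * (p * Z)) ≤ ((M : ℝ) + 1) * K * (p * Z / θ) := by
      push_cast
      rw [mul_assoc]
      refine mul_le_mul_of_nonneg_left ?_ (by linarith)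
      exact mul_le_mul_of_nonneg_left hdiv hK0.le
    have h6 : (M : ℕ) * (K * (p * Z / θ)) ≤ ((M : ℝ) + 1) * K * (p * Z / θ) := by
      rw [mul_assoc]
      refine mul_le_mul_of_nonneg_right (by linarith) ?_
      exact mul_nonneg hK0.le (div_nonneg hpZ hθ.le)
    linarith
  -- the other colourings
  have hgood : Z ≤ cG X BAD + cG X (fun F => F08_P3 β A₀ (22 * ((q : ℝ) ^ 2 / 4 + 1) * θ)
      (sw4 X ev U (sz d q) pr M F)) := by
    refine le_trans ?_ (F08_or X _ _)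
    refine F08_mono fun F hF _ => ?_
    by_cases hb : BAD F
    · exact Or.inl hb
    · refine Or.inr ?_
      rw [hBAD] at hb
      simp only [not_or, not_exists, not_and] at hb
      obtain ⟨hb1, hb2⟩ := hb
      have h2 : 21 * ((M : ℝ) + 1) * θ ≤ 22 * ((q : ℝ) ^ 2 / 4 + 1) * θ := by
        rw [← hMr]
        refine mul_le_mul_of_nonneg_right ?_ hθ.le
        have : (0 : ℝ) ≤ (M : ℕ) := Nat.cast_nonneg _
        linarith
      exact sweep_blocks4 hd hq hR hP U A₀ hA pr M hpr hall β hpar hfib hU θ _ hθ h2 hF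
        (fun m hm => (not_le.1 (hb1 m (by omega))).le)
        (fun m hm => (not_le.1 (hb2 m hm)).le)
  have hfin := sw4_mult hP U (sz d q) hs0 pr M hne (F08_P3 β A₀ (22 * ((q : ℝ) ^ 2 / 4 + 1) * θ))
  have h3 : Z / 2 ≤ K * cG X (F08_P3 (q := q) β A₀ (22 * ((q : ℝ) ^ 2 / 4 + 1) * θ)) := by
    have h4 : (2 : ℝ) ^ (M * ⌊(U.card : ℝ) / sz d q⌋₊) *
        cG X (F08_P3 (q := q) β A₀ (22 * ((q : ℝ) ^ 2 / 4 + 1) * θ)) ≤
        K * cG X (F08_P3 (q := q) β A₀ (22 * ((q : ℝ) ^ 2 / 4 + 1) * θ)) :=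
      mul_le_mul_of_nonneg_right hWK (F08_nn _ _)
    linarith
  rw [div_mul_eq_mul_div, one_mul, div_le_iff₀ (by positivity)]
  linarith

open scoped Classical in
theorem alignG4 {d q : ℕ} (hd : 1 ≤ d) (hR : Rg d q) (V Bl : Type) [Fintype V] [DecidableEq V] [Fintype Bl]
    (X : SimpleGraph V) (ev : V → Prop) (hP : Par X ev) (β : Bl → Bt d → Bt d → V)
    (hpar : ∀ t a b, ev (β t a b) ↔ ¬ od a b)
    (hfib : ∀ t v, ((univ.filter fun p : Bt d × Bt d => β t p.1 p.2 = v).card : ℝ) ≤ 2 ^ d)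
    (U : Finset V) (hU : ∀ t a b, β t a b ∈ U) (A₀ : Finset (Fin q)) (hA : A₀.card = q / 2)
    (θ p : ℝ) (hθ : 0 < θ) (hθ1 : θ ≤ 1)
    (hp : cG X (fun F : V → Fin q =>
      θ * Fintype.card Bl ≤ ((univ.filter fun t : Bl => ¬ GDP (fun a b => F (β t a b))).card : ℝ)) ≤
        p * cG X (fun _ : V → Fin q => True))
    (hs : 4 * ((q : ℝ) ^ 2 / 4 + 1) * cK d q U.card * p / θ ≤ 1) :
    1 / (2 * cK d q U.card) * cG X (fun _ : V → Fin q => True) ≤
      cG X (fun F : V → Fin q =>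
        ((univ.filter fun t : Bl => ¬ (GDP (fun a b => F (β t a b)) ∧ ALP (fun a b => F (β t a b)) = A₀)).card : ℝ) ≤
          22 * ((q : ℝ) ^ 2 / 4 + 1) * θ * Fintype.card Bl) := by
  have h := F08_main hd hR V Bl X ev hP β hpar (fun t v => by convert hfib t v) U hU A₀ hA θ p hθ hθ1 hp hs
  exact h

end Pool.Agent.LC
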